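import Pool.Agent.Lib.MP_056111_lc.HL.Defs

/-!
The uniform condition and its first consequences.
-/

open Set Topology Filter Pointwise

namespace Pool.Agent.Lib.MP_056111_lc.HL

variable {G : Type} [NormedAddCommGroup G]

lemma base_compact (T : ℕ → Set G) (hT : ∀ n, IsCompact (T n))
    (hs : ∀ n, ∀ x ∈ T n, ‖x‖ ≤ 2 * (1 / ((n : ℝ) + 1))) : IsCompact ({0} ∪ ⋃ n, T n) := by
  rw [isCompact_iff_finite_subcover]
  intro ι O hO hcov
  obtain ⟨i0, hi0⟩ := mem_iUnion.1 (hcov (Or.inl rfl))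
  obtain ⟨ε, hε, hb⟩ := Metric.isOpen_iff.1 (hO i0) 0 hi0
  obtain ⟨N, hN⟩ := exists_nat_one_div_lt (half_pos hε)
  have hfin : IsCompact (⋃ n ∈ Finset.range N, T n) :=
    (Finset.range N).finite_toSet.isCompact_biUnion fun n _ => hT n
  obtain ⟨t, ht⟩ := hfin.elim_finite_subcover O hO (by
    intro x hx
    simp only [mem_iUnion] at hx
    obtain ⟨n, -, hx⟩ := hx
    exact hcov (Or.inr (mem_iUnion.2 ⟨n, hx⟩)))
  classical
  refine ⟨insert i0 t, ?_⟩
  rintro x (hx | hx)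
  · rw [mem_singleton_iff.1 hx]
    exact mem_biUnion (Finset.mem_insert_self i0 t) hi0
  · obtain ⟨n, hx⟩ := mem_iUnion.1 hx
    by_cases hn : n < N
    · have := ht (mem_biUnion (Finset.mem_range.2 hn) hx)
      simp only [mem_iUnion] at this
      obtain ⟨i, hi, hx⟩ := this
      exact mem_biUnion (Finset.mem_insert_of_mem hi) hx
    · refine mem_biUnion (Finset.mem_insert_self i0 t) (hb ?_)
      rw [mem_ball_zero_iff]
      have h1 : 1 / ((n : ℝ) + 1) ≤ 1 / ((N : ℝ) + 1) :=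
        Nat.one_div_le_one_div (by omega)
      linarith [hs n x hx]

theorem exists_star (h : CL.LH G) : ∃ ρ > 0, Star G ρ := by
  by_contra hcon
  push Not at hcon
  have : ∀ j : ℕ, ∃ D : Set G, IsCompact D ∧ ¬ ∃ C : Set G, IsCompact C ∧ (0 : G) ∈ C ∧
      ∀ x ∈ C, ∀ d ∈ D, ‖x + d‖ < 1 / ((j : ℝ) + 1) → x + d ∈ C := by
    intro j
    by_contra hh
    exact hcon (1 / ((j : ℝ) + 1)) (by positivity) fun D hD => by
      by_contra h2
      exact hh ⟨D, hD, h2⟩
  choose D hD hbad using this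
  obtain ⟨U, hU, C, hC, h0, hCD⟩ :=
    h _ (base_compact (fun j => D j ∩ Metric.closedBall 0 (2 * (1 / ((j : ℝ) + 1))))
      (fun j => (hD j).inter_right Metric.isClosed_closedBall)
      fun j x hx => mem_closedBall_zero_iff.1 hx.2)
  obtain ⟨r, hr, hb⟩ := Metric.mem_nhds_iff.1 hU
  obtain ⟨j, hj⟩ := exists_nat_one_div_lt (half_pos hr)
  have hp : (0 : ℝ) < 1 / ((j : ℝ) + 1) := by positivity
  refine hbad j ⟨C ∩ Metric.closedBall 0 (1 / ((j : ℝ) + 1)),
    hC.inter_right Metric.isClosed_closedBall, ⟨h0, by simpa using hp.le⟩, ?_⟩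
  rintro x ⟨hxC, hx⟩ d hd hn
  rw [mem_closedBall_zero_iff] at hx
  have hdn : ‖d‖ ≤ 2 * (1 / ((j : ℝ) + 1)) := by
    have e : d = (x + d) - x := by abel
    have := norm_sub_le (x + d) x
    rw [← e] at this
    linarith
  refine ⟨hCD x ⟨hxC, hb (mem_ball_zero_iff.2 (by linarith))⟩ d
    ⟨Or.inr (mem_iUnion.2 ⟨j, hd, mem_closedBall_zero_iff.2 hdn⟩),
      hb (mem_ball_zero_iff.2 (by linarith))⟩, mem_closedBall_zero_iff.2 hn.le⟩

theorem Star.hull {ρ : ℝ} (h : Star G ρ) (M : AddSubgroup G) (hM : ∀ x ∈ M, ‖x‖ < ρ)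
    {D : Set G} (hD : IsCompact D) (hDM : D ⊆ M) :
    IsCompact (closure (AddSubgroup.closure D : Set G)) := by
  obtain ⟨C, hC, h0, hCD⟩ := h _ (hD.union hD.neg)
  have hle : AddSubgroup.closure D ≤ M := (AddSubgroup.closure_le _).2 hDM
  refine hC.of_isClosed_subset isClosed_closure (closure_minimal ?_ hC.isClosed)
  intro y hy
  induction hy using AddSubgroup.closure_induction_right with
  | zero => exact h0
  | add_right x hx d hd ih =>
    exact hCD x ih d (Or.inl hd) (hM _ (hle (add_mem hx (AddSubgroup.subset_closure hd))))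
  | add_neg_cancel x hx d hd ih =>
    exact hCD x ih (-d) (Or.inr (by simpa using hd))
      (hM _ (hle (add_mem hx (neg_mem (AddSubgroup.subset_closure hd)))))

theorem Star.null {ρ : ℝ} (h : Star G ρ) {x : ℕ → G} (hx : Tendsto x atTop (𝓝 0)) :
    ∃ C : Set G, IsCompact C ∧ ∀ i k : ℕ, (∀ j ≤ k, ‖j • x i‖ < ρ) → k • x i ∈ C := by
  obtain ⟨C, hC, h0, hCD⟩ := h _ hx.isCompact_insert_range
  refine ⟨C, hC, fun i k => ?_⟩
  induction k with
  | zero => intro _; simpa using h0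
  | succ k ih =>
    intro hk
    rw [succ_nsmul]
    refine hCD _ (ih fun j hj => hk j (by omega)) _ (Or.inr ⟨i, rfl⟩) ?_
    rw [← succ_nsmul]
    exact hk _ le_rfl

lemma base_closed_Qset (s : ℝ) : IsClosed (Qset G s) := by
  rw [← closure_subset_iff_isClosed]
  intro κ hκ ε hε
  obtain ⟨κ', hκ', hd⟩ := Metric.mem_closure_iff.1 hκ (ε / 2) (half_pos hε)
  obtain ⟨x, k, h1, h2, h3⟩ := hκ' (ε / 2) (half_pos hε)
  refine ⟨x, k, by linarith, ?_, h3⟩
  rw [dist_comm, dist_eq_norm] at hd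
  have e : k • x - κ = (k • x - κ') + (κ' - κ) := by abel
  rw [e]
  linarith [norm_add_le (k • x - κ') (κ' - κ)]

theorem Star.isCompact_Qset {ρ s : ℝ} (h : Star G ρ) (hs : s < ρ) : IsCompact (Qset G s) := by
  refine IsSeqCompact.isCompact fun κ hκ => ?_
  choose x k h1 h2 h3 using fun n : ℕ => hκ n (1 / ((n : ℝ) + 1)) (by positivity)
  have hl := tendsto_one_div_add_atTop_nhds_zero_nat (𝕜 := ℝ)
  have hx : Tendsto x atTop (𝓝 0) := squeeze_zero_norm (fun n => (h1 n).le) hl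
  obtain ⟨C, hC, hmem⟩ := h.null hx
  obtain ⟨a, -, φ, hφ, ha⟩ := hC.tendsto_subseq (x := fun n => k n • x n)
    fun n => hmem n _ fun j hj => (h3 n j hj).trans_lt hs
  have hd : Tendsto (fun n => k n • x n - κ n) atTop (𝓝 0) :=
    squeeze_zero_norm (fun n => (h2 n).le) hl
  have hlim : Tendsto (κ ∘ φ) atTop (𝓝 a) := by
    have := ha.sub (hd.comp hφ.tendsto_atTop)
    rw [sub_zero] at this
    refine this.congr fun n => ?_
    simp
  exact ⟨a, (base_closed_Qset s).mem_of_tendsto hlim (Eventually.of_forall fun n => hκ _),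
    φ, hφ, hlim⟩

theorem isClosed_Pset (s : ℝ) : IsClosed (Pset G s) := by
  simp only [Pset, ofPred_forall]
  exact isClosed_iInter fun k => isClosed_le (continuous_const_smul k).norm continuous_const

theorem NQ.mono {t t' : ℝ} (h : NQ G t) (ht : t' ≤ t) : NQ G t' := by
  intro κ hQ hP
  refine h κ (fun ε hε => ?_) fun k => (hP k).trans ht
  obtain ⟨x, k, h1, h2, h3⟩ := hQ ε hε
  exact ⟨x, k, h1, h2, fun j hj => (h3 j hj).trans ht⟩

end Pool.Agent.Lib.MP_056111_lc.HL
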