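import Pool.Agent.Lib.MP_056111_lc.HL.Defs
import Pool.Agent.Lib.MP_a4feb0_gt.Main

/-!
Characters of compact subgroups.
-/

open Set Topology Filter Pointwise

namespace Pool.Agent.Lib.MP_056111_lc.HL

variable {G : Type} [NormedAddCommGroup G]

theorem chr_step {w : ℂ} (hw : ‖w‖ = 1) (h : ‖w - 1‖ < 1) : 3 / 2 * ‖w - 1‖ ≤ ‖w ^ 2 - 1‖ := by
  have h1 := parallelogram_law_with_norm ℝ w 1
  rw [hw, norm_one] at h1
  have h2 : w ^ 2 - 1 = (w + 1) * (w - 1) := by ring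
  have h3 := norm_nonneg (w - 1)
  have h4 := norm_nonneg (w + 1)
  rw [h2, norm_mul]
  refine mul_le_mul_of_nonneg_right ?_ h3
  by_contra h5
  have h6 := not_le.1 h5
  nlinarith

theorem circ_eq_one {z : ℂ} (hz : ‖z‖ = 1) (h : ∀ k : ℕ, ‖z ^ k - 1‖ < 1) : z = 1 := by
  by_contra hne
  have h0 : 0 < ‖z - 1‖ := norm_pos_iff.2 (sub_ne_zero.2 hne)
  have key : ∀ j : ℕ, (3 / 2 : ℝ) ^ j * ‖z - 1‖ ≤ ‖z ^ 2 ^ j - 1‖ := fun j => by
    induction j with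
    | zero => simp
    | succ j ih =>
      have h1 := chr_step (w := z ^ 2 ^ j) (by rw [norm_pow, hz, one_pow]) (h _)
      rw [← pow_mul, ← pow_succ] at h1
      rw [pow_succ]
      linarith
  obtain ⟨j, hj⟩ := pow_unbounded_of_one_lt (1 / ‖z - 1‖) (by norm_num : (1 : ℝ) < 3 / 2)
  rw [div_lt_iff₀ h0] at hj
  linarith [key j, h (2 ^ j)]

theorem exists_char (K : AddSubgroup G) (hK : IsCompact (K : Set G)) {x : G} (hx : x ∈ K)
    (h0 : x ≠ 0) : ∃ χ : G → ℂ, ContinuousOn χ K ∧ (∀ a ∈ K, ∀ b ∈ K, χ (a + b) = χ a * χ b) ∧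
      (∀ a ∈ K, ‖χ a‖ = 1) ∧ χ x ≠ 1 := by
  classical
  have : CompactSpace K := isCompact_iff_compactSpace.1 hK
  obtain ⟨γ, h1, h2, h3, h4⟩ := Pool.Agent.Lib.MP_a4feb0_gt.exists_char_compact (⟨x, hx⟩ : K)
    fun h => h0 (congrArg Subtype.val h)
  obtain ⟨χ, hχ⟩ : ∃ χ : G → ℂ, ∀ a (ha : a ∈ K), χ a = γ ⟨a, ha⟩ :=
    ⟨fun a => if ha : a ∈ K then γ ⟨a, ha⟩ else 1, fun a ha => dif_pos ha⟩
  refine ⟨χ, ?_, fun a ha b hb => ?_, fun a ha => ?_, ?_⟩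
  · rw [continuousOn_iff_continuous_domRestrict]
    exact h1.congr fun a => (hχ a.1 a.2).symm
  · rw [hχ a ha, hχ b hb, hχ _ (K.add_mem ha hb), ← h2]
    rfl
  · rw [hχ a ha, h3]
  · rwa [hχ x hx]

theorem exists_nss (K : AddSubgroup G) (hK : IsCompact (K : Set G)) {s : ℝ} (hs : 0 < s) :
    ∃ N : AddSubgroup G, IsCompact (N : Set G) ∧ (∀ ν ∈ N, ‖ν‖ < s) ∧ ∃ t > 0,
      ∀ κ ∈ K, (∀ k : ℕ, ∃ ν ∈ N, ‖k • κ - ν‖ < t) → κ ∈ N := by
  have hex : ∀ x : G, ∃ χ : G → ℂ, ContinuousOn χ K ∧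
      (∀ a ∈ K, ∀ b ∈ K, χ (a + b) = χ a * χ b) ∧ (∀ a ∈ K, ‖χ a‖ = 1) ∧
      (x ∈ K → x ≠ 0 → χ x ≠ 1) := fun x => by
    by_cases h : x ∈ K ∧ x ≠ 0
    · obtain ⟨χ, h1, h2, h3, h4⟩ := exists_char K hK h.1 h.2
      exact ⟨χ, h1, h2, h3, fun _ _ => h4⟩
    · exact ⟨fun _ => 1, continuousOn_const, fun _ _ _ _ => (one_mul _).symm, fun _ _ => norm_one,
        fun h1 h2 => absurd ⟨h1, h2⟩ h⟩
  choose χ h1 h2 h3 h4 using hex
  have hz : ∀ i, χ i 0 = 1 := fun i => by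
    have e := h2 i 0 K.zero_mem 0 K.zero_mem
    rw [add_zero] at e
    have n0 : χ i 0 ≠ 0 := fun h => by
      have := h3 i 0 K.zero_mem
      rw [h, norm_zero] at this
      exact zero_ne_one this
    exact mul_left_cancel₀ n0 (by rw [mul_one, ← e])
  have hp : ∀ i, ∀ a ∈ K, ∀ k : ℕ, χ i (k • a) = χ i a ^ k := fun i a ha k => by
    induction k with
    | zero => rw [zero_smul, pow_zero, hz]
    | succ k ih => rw [succ_nsmul, h2 i _ (K.nsmul_mem ha k) a ha, ih, pow_succ]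
  have hS : IsCompact ((K : Set G) ∩ {x | s ≤ ‖x‖}) :=
    hK.inter_right (isClosed_le continuous_const continuous_norm)
  obtain ⟨T, -, hT⟩ := hS.elim_nhdsWithin_subcover (fun x => χ x ⁻¹' {w | w ≠ 1}) fun x hx =>
    ((h1 x).mono inter_subset_left x hx).preimage_mem_nhdsWithin (isOpen_ne.mem_nhds
      (h4 x hx.1 fun h => by
        have := hx.2
        rw [h, mem_ofPred_eq, norm_zero] at this
        exact absurd hs (not_lt.2 this)))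
  obtain ⟨N, hN⟩ : ∃ N : AddSubgroup G, ∀ x, x ∈ N ↔ x ∈ K ∧ ∀ i ∈ T, χ i x = 1 := by
    refine ⟨⟨⟨⟨{x | x ∈ K ∧ ∀ i ∈ T, χ i x = 1}, fun {a b} ha hb => ⟨K.add_mem ha.1 hb.1,
      fun i hi => ?_⟩⟩, K.zero_mem, fun i _ => hz i⟩, fun {a} ha => ⟨K.neg_mem ha.1,
      fun i hi => ?_⟩⟩, fun _ => Iff.rfl⟩
    · rw [h2 i a ha.1 b hb.1, ha.2 i hi, hb.2 i hi, one_mul]
    · have e := h2 i (-a) (K.neg_mem ha.1) a ha.1
      rw [neg_add_cancel, hz, ha.2 i hi, mul_one] at e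
      exact e.symm
  have hev : ∀ᶠ ξ in 𝓝[(K : Set G)] 0, ∀ i ∈ T, ‖χ i ξ - 1‖ < 1 :=
    (eventually_all_finset T).2 fun i _ => by
      have := (h1 i 0 K.zero_mem).preimage_mem_nhdsWithin (Metric.ball_mem_nhds _ one_pos)
      rw [hz] at this
      exact mem_of_superset this fun ξ hξ => mem_ball_iff_norm.1 hξ
  obtain ⟨t, ht, ht'⟩ := Metric.mem_nhdsWithin_iff.1 hev
  refine ⟨N, ?_, fun ν hν => ?_, t, ht, fun κ hκ h => (hN κ).2 ⟨hκ, fun i hi => ?_⟩⟩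
  · have e : (N : Set G) = (K : Set G) ∩ ⋂ i ∈ T, ((K : Set G) ∩ χ i ⁻¹' {1}) := by
      ext x
      rw [SetLike.mem_coe, hN, mem_inter_iff, mem_iInter₂]
      exact and_congr_right fun hx => forall₂_congr fun i _ => ⟨fun h => ⟨hx, h⟩, fun h => h.2⟩
    rw [e]
    exact hK.inter_right (isClosed_biInter fun i _ =>
      (h1 i).preimage_isClosed_of_isClosed hK.isClosed isClosed_singleton)
  · by_contra h
    obtain ⟨i, hi, h5⟩ := mem_iUnion₂.1 (hT ⟨((hN ν).1 hν).1, not_lt.1 h⟩)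
    exact h5 (((hN ν).1 hν).2 i hi)
  · refine circ_eq_one (h3 i κ hκ) fun k => ?_
    obtain ⟨ν, hν, h5⟩ := h k
    obtain ⟨hνK, hν1⟩ := (hN ν).1 hν
    have hm : k • κ - ν ∈ K := K.sub_mem (K.nsmul_mem hκ k) hνK
    have e := h2 i _ hm ν hνK
    rw [sub_add_cancel, hν1 i hi, mul_one, hp i κ hκ] at e
    rw [e]
    exact ht' ⟨mem_ball_zero_iff.2 h5, hm⟩ i hi

end Pool.Agent.Lib.MP_056111_lc.HL
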