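import Pool.Agent.Lib.MP_056111_lc.HL.Net

/-!
A neighbourhood of zero is covered by a cube and small subgroups.
-/

open Set Topology Filter Pointwise

namespace Pool.Agent.Lib.MP_056111_lc.HL

variable {G : Type} [NormedAddCommGroup G]

/-- The sum of finitely many one parameter subgroups. -/
def cubeMap {m : ℕ} (f : Fin m → (ℝ →+ G)) : (Fin m → ℝ) →+ G where
  toFun v := ∑ a, f a (v a)
  map_zero' := by simp
  map_add' v w := by simp [Finset.sum_add_distrib]

theorem cube_apply {m : ℕ} (f : Fin m → (ℝ →+ G)) (v : Fin m → ℝ) :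
    cubeMap f v = ∑ a, f a (v a) := rfl

theorem cube_single {m : ℕ} (f : Fin m → (ℝ →+ G)) (a : Fin m) (s : ℝ) :
    cubeMap f (Pi.single a s) = f a s := by
  rw [cube_apply, Finset.sum_eq_single a]
  · simp
  · intro b _ hb
    simp [Pi.single_eq_of_ne hb]
  · simp

theorem cube_cont {m : ℕ} (f : Fin m → (ℝ →+ G)) (hf : ∀ a, Continuous (f a)) :
    Continuous (cubeMap f) := by
  have : (cubeMap f : (Fin m → ℝ) → G) = fun v => ∑ a, f a (v a) := rfl
  rw [this]
  exact continuous_finsetSum _ fun a _ => (hf a).comp (continuous_apply a)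

theorem Star.cube {ρ t : ℝ} (h : Star G ρ) (hq : NQ G t) (ht0 : 0 < t) (ht : t < ρ) :
    ∃ (m : ℕ) (e : (Fin m → ℝ) →+ G), Continuous e ∧ ∃ ε > (0 : ℝ),
      ∀ x : G, ‖x‖ < ε → ∃ v : Fin m → ℝ, ‖v‖ ≤ 1 ∧ x - e v ∈ Pset G t := by
  obtain ⟨m, f, hf, ε0, hε0, n0, hd⟩ := h.double hq ht0 ht
  have hc := cube_cont f hf
  set e := cubeMap f with he
  obtain ⟨δ, hδ, hδe⟩ : ∃ δ > (0 : ℝ), ∀ v : Fin m → ℝ, ‖v‖ < δ → ‖e v‖ < ε0 / 2 := by
    obtain ⟨δ, hδ, H⟩ := Metric.continuousAt_iff.mp (hc.continuousAt (x := 0)) (ε0 / 2)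
      (by positivity)
    refine ⟨δ, hδ, fun v hv => ?_⟩
    have := H (x := v) (by simpa using hv)
    simpa using this
  obtain ⟨n1, hn1⟩ := exists_nat_gt (2 / δ)
  obtain ⟨n, hn0, hn2, hnδ⟩ : ∃ n : ℕ, n0 ≤ n ∧ 2 ≤ n ∧ 2 / (n : ℝ) < δ := by
    refine ⟨n0 + n1 + 2, by omega, by omega, ?_⟩
    have h1 : (0 : ℝ) < ((n0 + n1 + 2 : ℕ) : ℝ) := by positivity
    rw [div_lt_iff₀ h1]
    rw [div_lt_iff₀ hδ] at hn1
    have h2 : (n1 : ℝ) ≤ ((n0 + n1 + 2 : ℕ) : ℝ) := by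
      exact_mod_cast (by omega : n1 ≤ n0 + n1 + 2)
    nlinarith
  have hnR : (2 : ℝ) ≤ n := by exact_mod_cast hn2
  have hnpos : (0 : ℝ) < n := by linarith
  refine ⟨m, e, hc, min (ε0 / 2) (t / n), lt_min (by positivity) (by positivity), ?_⟩
  intro x hx
  have hx1 : ‖x‖ < ε0 / 2 := lt_of_lt_of_le hx (min_le_left _ _)
  have hx2 : ‖x‖ < t / n := lt_of_lt_of_le hx (min_le_right _ _)
  have hle : ∀ j : ℕ, (2 - 2 / (2 : ℝ) ^ j) / n ≤ 2 / n := by
    intro j
    apply div_le_div_of_nonneg_right _ hnpos.le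
    have : (0 : ℝ) ≤ 2 / (2 : ℝ) ^ j := by positivity
    linarith
  have key : ∀ j : ℕ, ∃ v : Fin m → ℝ, ‖v‖ ≤ (2 - 2 / (2 : ℝ) ^ j) / n ∧
      ∀ k ≤ 2 ^ j * n, ‖k • (x - e v)‖ ≤ t := by
    intro j
    induction j with
    | zero =>
      refine ⟨0, by simp, fun k hk => ?_⟩
      have hk' : (k : ℝ) ≤ n := by
        have : k ≤ n := by simpa using hk
        exact_mod_cast this
      rw [map_zero, sub_zero]
      calc ‖k • x‖ ≤ k * ‖x‖ := norm_nsmul_le
        _ ≤ n * (t / n) := mul_le_mul hk' hx2.le (norm_nonneg _) hnpos.le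
        _ = t := by field_simp
    | succ j ih =>
      obtain ⟨v, hv, hk⟩ := ih
      have hev : ‖e v‖ < ε0 / 2 := hδe v (lt_of_le_of_lt (hv.trans (hle j)) hnδ)
      have hy : ‖x - e v‖ < ε0 := by
        have := norm_sub_le x (e v)
        linarith
      have hN : n0 ≤ 2 ^ j * n := hn0.trans (Nat.le_mul_of_pos_left n (by positivity))
      obtain ⟨a, ha⟩ := hd (x - e v) (2 ^ j * n) hy hN hk
      refine ⟨v + Pi.single a (1 / ((2 ^ j * n : ℕ) : ℝ)), ?_, fun k hk2 => ?_⟩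
      · have h1 : ‖(Pi.single a (1 / ((2 ^ j * n : ℕ) : ℝ)) : Fin m → ℝ)‖
            = 1 / ((2 : ℝ) ^ j * n) := by
          rw [Pi.norm_single, Real.norm_of_nonneg (by positivity)]
          push_cast
          rfl
        refine (norm_add_le _ _).trans ?_
        rw [h1]
        have h2 : (2 - 2 / (2 : ℝ) ^ (j + 1)) / n
            = (2 - 2 / (2 : ℝ) ^ j) / n + 1 / ((2 : ℝ) ^ j * n) := by
          rw [pow_succ]
          field_simp
          ring
        rw [h2]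
        linarith
      · rw [map_add, he, cube_single, ← he, ← sub_sub]
        apply ha
        rw [pow_succ] at hk2
        calc k ≤ 2 ^ j * 2 * n := hk2
          _ = 2 * (2 ^ j * n) := by ring
  let S : ℕ → Set (Fin m → ℝ) := fun j =>
    {v | ‖v‖ ≤ 2 / n ∧ ∀ k ≤ 2 ^ j * n, ‖k • (x - e v)‖ ≤ t}
  have hcl : ∀ j, IsClosed (S j) := by
    intro j
    have h1 : S j = {v | ‖v‖ ≤ 2 / n} ∩
        ⋂ k : ℕ, ⋂ _ : k ≤ 2 ^ j * n, {v | ‖k • (x - e v)‖ ≤ t} := by
      ext v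
      simp [S]
    rw [h1]
    refine (isClosed_le continuous_norm continuous_const).inter ?_
    refine isClosed_iInter fun k => isClosed_iInter fun _ => ?_
    exact isClosed_le ((continuous_const.sub hc).nsmul k).norm continuous_const
  have hne : ∀ j, (S j).Nonempty := by
    intro j
    obtain ⟨v, hv, hk⟩ := key j
    exact ⟨v, hv.trans (hle j), hk⟩
  have hdec : ∀ j, S (j + 1) ⊆ S j := by
    intro j v hv
    refine ⟨hv.1, fun k hk => hv.2 k (hk.trans ?_)⟩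
    exact Nat.mul_le_mul_right n (Nat.pow_le_pow_right (by norm_num) (Nat.le_succ j))
  have hcp : IsCompact (S 0) := by
    refine (isCompact_closedBall (0 : Fin m → ℝ) (2 / n)).of_isClosed_subset (hcl 0) ?_
    intro v hv
    simpa using hv.1
  obtain ⟨v, hv⟩ := IsCompact.nonempty_iInter_of_sequence_nonempty_isCompact_isClosed
    S hdec hne hcp hcl
  rw [mem_iInter] at hv
  refine ⟨v, (hv 0).1.trans ?_, fun k => (hv k).2 k ?_⟩
  · rw [div_le_one hnpos]
    exact hnR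
  · exact (Nat.lt_two_pow_self.le).trans (Nat.le_mul_of_pos_right _ (by omega))

end Pool.Agent.Lib.MP_056111_lc.HL
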