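import Pool.Agent.Lib.MP_056111_lc.CL.Defs

/-!
Definitions for the proof that the local condition implies that every compact set lies in a
locally compact subgroup.
-/

open Set Topology Filter Pointwise

namespace Pool.Agent.Lib.MP_056111_lc.HL

/-- The uniform form of the local condition. -/
def Star (G : Type) [NormedAddCommGroup G] (ρ : ℝ) : Prop :=
  ∀ D : Set G, IsCompact D → ∃ C : Set G, IsCompact C ∧ (0 : G) ∈ C ∧
    ∀ x ∈ C, ∀ d ∈ D, ‖x + d‖ < ρ → x + d ∈ C

/-- Elements all of whose multiples stay in the closed ball of radius `s`. -/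
def Pset (G : Type) [NormedAddCommGroup G] (s : ℝ) : Set G := {x | ∀ k : ℕ, ‖k • x‖ ≤ s}

/-- Limits of multiples of small elements along paths in the closed ball of radius `s`. -/
def Qset (G : Type) [NormedAddCommGroup G] (s : ℝ) : Set G :=
  {κ | ∀ ε > 0, ∃ (x : G) (k : ℕ), ‖x‖ < ε ∧ ‖k • x - κ‖ < ε ∧ ∀ j ≤ k, ‖j • x‖ ≤ s}

/-- No small subgroup is generated by such a limit. -/
def NQ (G : Type) [NormedAddCommGroup G] (t : ℝ) : Prop :=
  ∀ κ ∈ Qset G t, κ ∈ Pset G t → κ = 0

/-- `D` lies in a closed subgroup that has a compact neighbourhood of `0`. -/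
def InLC {G : Type} [NormedAddCommGroup G] (D : Set G) : Prop :=
  ∃ L : AddSubgroup G, D ⊆ L ∧ IsClosed (L : Set G) ∧
    ∃ ε > 0, ∃ Z : Set G, IsCompact Z ∧ ∀ x ∈ L, ‖x‖ < ε → x ∈ Z

end Pool.Agent.Lib.MP_056111_lc.HL
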