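import Pool.Agent.Lib.MP_056111_lc.HL.Base

/-!
Equicontinuity of multiples.
-/

open Set Topology Filter Pointwise

namespace Pool.Agent.Lib.MP_056111_lc.HL

variable {G : Type} [NormedAddCommGroup G]

theorem Star.equi {ρ t : ℝ} (h : Star G ρ) (hq : NQ G t) (ht : t < ρ) {η : ℝ} (hη : 0 < η) :
    ∃ θ > (0 : ℝ), ∃ ε > (0 : ℝ), ∀ (x : G) (n : ℕ), ‖x‖ < ε → (∀ k ≤ n, ‖k • x‖ ≤ t) →
      ∀ k : ℕ, (k : ℝ) ≤ θ * n → ‖k • x‖ < η := by
  by_contra hcon
  push Not at hcon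
  choose x n hx hb k hk hη' using fun m : ℕ =>
    hcon (1 / ((m : ℝ) + 1)) (by positivity) (1 / ((m : ℝ) + 1)) (by positivity)
  have hx0 : Tendsto x atTop (𝓝 0) := by
    rw [tendsto_zero_iff_norm_tendsto_zero]
    exact squeeze_zero (fun _ => norm_nonneg _) (fun m => (hx m).le)
      tendsto_one_div_add_atTop_nhds_zero_nat
  have hkn : ∀ m l : ℕ, l ≤ m + 1 → l * k m ≤ n m := by
    intro m l hl
    have h1 := hk m
    rw [one_div, ← div_eq_inv_mul, le_div_iff₀ (by positivity)] at h1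
    have h2 : k m * (m + 1) ≤ n m := by exact_mod_cast h1
    calc l * k m ≤ (m + 1) * k m := Nat.mul_le_mul_right _ hl
      _ ≤ n m := by rwa [mul_comm]
  have hk1 : ∀ m, k m ≤ n m := fun m => by simpa using hkn m 1 (by omega)
  obtain ⟨C, hC, hmem⟩ := h.null hx0
  obtain ⟨κ, -, φ, hφ, hlim⟩ := hC.tendsto_subseq (x := fun m => k m • x m)
    fun m => hmem m (k m) fun j hj => (hb m j (hj.trans (hk1 m))).trans_lt ht
  have hQ : κ ∈ Qset G t := by
    intro ε hε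
    have a1 := (hx0.comp hφ.tendsto_atTop).norm.eventually (gt_mem_nhds (by simpa using hε))
    have a2 := (tendsto_iff_norm_sub_tendsto_zero.1 hlim).eventually (gt_mem_nhds hε)
    obtain ⟨m, b1, b2⟩ := (a1.and a2).exists
    exact ⟨x (φ m), k (φ m), b1, b2, fun j hj => hb _ j (hj.trans (hk1 _))⟩
  have hP : κ ∈ Pset G t := by
    intro l
    refine le_of_tendsto (hlim.const_smul l).norm ?_
    filter_upwards [hφ.tendsto_atTop.eventually_ge_atTop l] with m hm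
    have := hb (φ m) (l * k (φ m)) (hkn _ l (by omega))
    rwa [mul_smul] at this
  have h0 := hq κ hQ hP
  have := ge_of_tendsto' hlim.norm fun m => hη' (φ m)
  rw [h0, norm_zero] at this
  exact absurd this (not_le.2 hη)

theorem exists_bounded_gen {m : ℕ} (Λ : AddSubgroup (Fin m → ℝ)) :
    ∃ R : ℝ, Λ ≤ AddSubgroup.closure ((Λ : Set (Fin m → ℝ)) ∩ Metric.closedBall 0 R) := by
  obtain ⟨T, hT, -, hspan, -⟩ := Submodule.exists_finset_span_eq_linearIndepOn ℝ
    (Λ : Set (Fin m → ℝ))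
  refine ⟨∑ b ∈ T, ‖b‖, fun y hy => ?_⟩
  have hy' : y ∈ Submodule.span ℝ (T : Set (Fin m → ℝ)) := by
    rw [hspan]; exact Submodule.subset_span hy
  obtain ⟨c, -, hc⟩ := Submodule.mem_span_finset.1 hy'
  have hb : ∀ b ∈ T, b ∈ AddSubgroup.closure
      ((Λ : Set (Fin m → ℝ)) ∩ Metric.closedBall 0 (∑ b ∈ T, ‖b‖)) := fun b hb =>
    AddSubgroup.subset_closure ⟨hT hb, by
      rw [mem_closedBall_zero_iff]
      exact Finset.single_le_sum (f := fun b : Fin m → ℝ => ‖b‖) (fun _ _ => norm_nonneg _) hb⟩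
  have e : y = ∑ b ∈ T, ⌊c b⌋ • b + ∑ b ∈ T, Int.fract (c b) • b := by
    rw [← hc, ← Finset.sum_add_distrib]
    refine Finset.sum_congr rfl fun b _ => ?_
    rw [← Int.cast_smul_eq_zsmul ℝ, ← add_smul, Int.floor_add_fract]
  have h1 : ∑ b ∈ T, Int.fract (c b) • b ∈ Λ := by
    have : ∑ b ∈ T, Int.fract (c b) • b = y - ∑ b ∈ T, ⌊c b⌋ • b := by
      rw [eq_sub_iff_add_eq, add_comm]; exact e.symm
    rw [this]
    exact Λ.sub_mem hy (Λ.sum_mem fun b hb => Λ.zsmul_mem (hT hb) _)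
  rw [e]
  refine AddSubgroup.add_mem _ (AddSubgroup.sum_mem _ fun b h => AddSubgroup.zsmul_mem _ (hb b h) _)
    (AddSubgroup.subset_closure ⟨h1, ?_⟩)
  rw [mem_closedBall_zero_iff]
  refine (norm_sum_le _ _).trans (Finset.sum_le_sum fun b _ => ?_)
  rw [norm_smul, Real.norm_eq_abs, abs_of_nonneg (Int.fract_nonneg _)]
  exact mul_le_of_le_one_left (norm_nonneg _) (Int.fract_lt_one _).le

theorem exists_fg_inf {A : Type} [AddCommGroup A] (F : Finset A) (W : AddSubgroup A) :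
    ∃ F' : Finset A, AddSubgroup.closure (F : Set A) ⊓ W = AddSubgroup.closure (F' : Set A) := by
  have h1 : (AddSubgroup.toIntSubmodule (AddSubgroup.closure (F : Set A))).FG :=
    (Submodule.fg_iff_addSubgroup_fg _).2 ⟨F, rfl⟩
  have h2 : (AddSubgroup.toIntSubmodule (AddSubgroup.closure (F : Set A) ⊓ W)).FG :=
    h1.of_le (AddSubgroup.toIntSubmodule.monotone inf_le_left)
  obtain ⟨F', hF'⟩ := (Submodule.fg_iff_addSubgroup_fg _).1 h2
  exact ⟨F', hF'.symm⟩

end Pool.Agent.Lib.MP_056111_lc.HL
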