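import Pool.Agent.Lib.MP_056111_lc.HL.Equi

/-!
The locally compact subgroup.
-/

open Set Topology Filter Pointwise

namespace Pool.Agent.Lib.MP_056111_lc.HL

variable {G : Type} [NormedAddCommGroup G]

theorem inLC_of_cube (M : AddSubgroup G) (hMc : IsClosed (M : Set G))
    (hM : ∀ D : Set G, IsCompact D → D ⊆ M → IsCompact (closure (AddSubgroup.closure D : Set G)))
    {m : ℕ} (e : (Fin m → ℝ) →+ G) (he : Continuous e) {ε : ℝ} (hε : 0 < ε)
    (hc : ∀ x : G, ‖x‖ < ε → ∃ v : Fin m → ℝ, ‖v‖ ≤ 1 ∧ x - e v ∈ M)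
    {D : Set G} (hD : IsCompact D) : InLC D := by
  classical
  obtain ⟨F0, -, hF0, hcov⟩ := finite_cover_balls_of_compact hD hε
  have hB : IsCompact (e '' Metric.closedBall 0 1) := (isCompact_closedBall _ _).image he
  have hsub : ∀ {S T : Set G}, IsCompact S → IsCompact T → IsCompact (S - T) := by
    intro S T hS hT
    rw [sub_eq_add_neg]
    exact hS.add hT.neg
  have hD2 : IsCompact ((D - F0 - e '' Metric.closedBall 0 1) ∩ M) :=
    (hsub (hsub hD hF0.isCompact) hB).inter_right hMc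
  obtain ⟨F', hF'⟩ := exists_fg_inf hF0.toFinset (e.range ⊔ M)
  rw [Finite.coe_toFinset] at hF'
  have hmm : ∀ f : G, ∃ μ : G, f ∈ F' → μ ∈ M ∧ f - μ ∈ e.range := by
    intro f
    by_cases hf : f ∈ F'
    · have h1 : f ∈ AddSubgroup.closure F0 ⊓ (e.range ⊔ M) := by
        rw [hF']
        exact AddSubgroup.subset_closure (Finset.mem_coe.2 hf)
      obtain ⟨a, ha, b, hb, hab⟩ := AddSubgroup.mem_sup.1 h1.2
      refine ⟨b, fun _ => ⟨hb, ?_⟩⟩
      rw [← hab, add_sub_cancel_right]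
      exact ha
    · exact ⟨0, fun h => absurd h hf⟩
  choose mm hmm using hmm
  obtain ⟨R, hR⟩ := exists_bounded_gen (M.comap e)
  have hΛ : IsCompact (((M.comap e : AddSubgroup (Fin m → ℝ)) : Set (Fin m → ℝ)) ∩
      Metric.closedBall 0 R) :=
    (isCompact_closedBall _ _).inter_left (hMc.preimage he)
  set D3 : Set G := ((D - F0 - e '' Metric.closedBall 0 1) ∩ M) ∪ mm '' (F' : Set G) ∪
    e '' (((M.comap e : AddSubgroup (Fin m → ℝ)) : Set (Fin m → ℝ)) ∩ Metric.closedBall 0 R)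
    with hD3
  have hD3c : IsCompact D3 :=
    (hD2.union (F'.finite_toSet.image mm).isCompact).union (hΛ.image he)
  have hD3M : D3 ⊆ M := by
    rintro x ((hx | ⟨f, hf, rfl⟩) | ⟨v, hv, rfl⟩)
    · exact hx.2
    · exact (hmm f hf).1
    · exact hv.1
  set K : AddSubgroup G := (AddSubgroup.closure D3).topologicalClosure with hK
  have hKc : IsCompact (K : Set G) := hM D3 hD3c hD3M
  have hKM : K ≤ M :=
    AddSubgroup.topologicalClosure_minimal _ ((AddSubgroup.closure_le _).2 hD3M) hMc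
  have hD3K : D3 ⊆ K := fun x hx =>
    AddSubgroup.le_topologicalClosure _ (AddSubgroup.subset_closure hx)
  have hΛK : ∀ v, e v ∈ M → e v ∈ K := by
    intro v hv
    have h1 : AddSubgroup.closure (((M.comap e : AddSubgroup (Fin m → ℝ)) : Set (Fin m → ℝ)) ∩
        Metric.closedBall 0 R) ≤ K.comap e :=
      (AddSubgroup.closure_le _).2 fun w hw => hD3K (Or.inr ⟨w, hw, rfl⟩)
    exact h1 (hR hv)
  have hF'K : AddSubgroup.closure (F' : Set G) ≤ e.range ⊔ K := by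
    refine (AddSubgroup.closure_le _).2 fun f hf => ?_
    exact AddSubgroup.mem_sup.2 ⟨_, (hmm f hf).2, mm f, hD3K (Or.inl (Or.inr ⟨f, hf, rfl⟩)),
      sub_add_cancel _ _⟩
  set L0 : AddSubgroup G := AddSubgroup.closure F0 ⊔ (e.range ⊔ K) with hL0
  have hDL : D ⊆ L0 := by
    intro d hd
    obtain ⟨f, hf, hdf⟩ := mem_iUnion₂.1 (hcov hd)
    obtain ⟨v, hv, hμ⟩ := hc (d - f) (by rwa [Metric.mem_ball, dist_eq_norm] at hdf)
    have h1 : d - f - e v ∈ K := hD3K (Or.inl (Or.inl ⟨Set.sub_mem_sub (Set.sub_mem_sub hd hf)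
      ⟨v, mem_closedBall_zero_iff.2 hv, rfl⟩, hμ⟩))
    refine AddSubgroup.mem_sup.2 ⟨f, AddSubgroup.subset_closure hf, d - f,
      AddSubgroup.mem_sup.2 ⟨e v, ⟨v, rfl⟩, _, h1, by abel⟩, by abel⟩
  have hZ : IsCompact ((K : Set G) + e '' Metric.closedBall 0 1) := hKc.add hB
  have hsmall : ∀ y ∈ L0, ‖y‖ < ε → y ∈ (K : Set G) + e '' Metric.closedBall 0 1 := by
    intro y hy hyε
    obtain ⟨u, hu, hyu⟩ := hc y hyε
    obtain ⟨φ, hφ, w, hw, hφw⟩ := AddSubgroup.mem_sup.1 hy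
    have hyW : y ∈ e.range ⊔ M :=
      AddSubgroup.mem_sup.2 ⟨e u, ⟨u, rfl⟩, _, hyu, by abel⟩
    have hwW : w ∈ e.range ⊔ M := sup_le_sup_left hKM _ hw
    have hφW : φ ∈ e.range ⊔ M := by
      have h1 := sub_mem hyW hwW
      rwa [← hφw, add_sub_cancel_right] at h1
    have hφK : φ ∈ e.range ⊔ K := by
      refine hF'K ?_
      rw [← hF']
      exact ⟨hφ, hφW⟩
    have hyK : y ∈ e.range ⊔ K := hφw ▸ add_mem hφK hw
    obtain ⟨_, ⟨v', rfl⟩, κ, hκ, hy'⟩ := AddSubgroup.mem_sup.1 hyK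
    have h1 : e (v' - u) ∈ M := by
      have h2 := sub_mem hyu (hKM hκ)
      have h3 : y - e u - κ = e (v' - u) := by rw [map_sub, ← hy']; abel
      rwa [h3] at h2
    refine ⟨κ + e (v' - u), add_mem hκ (hΛK _ h1), e u,
      ⟨u, mem_closedBall_zero_iff.2 hu, rfl⟩, ?_⟩
    show κ + e (v' - u) + e u = y
    rw [map_sub, ← hy']
    abel
  refine ⟨L0.topologicalClosure, fun d hd => AddSubgroup.le_topologicalClosure _ (hDL hd),
    AddSubgroup.isClosed_topologicalClosure _, ε, hε, _, hZ, fun x hx hxε => ?_⟩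
  have h1 : x ∈ closure (Metric.ball (0 : G) ε ∩ (L0 : Set G)) :=
    Metric.isOpen_ball.inter_closure ⟨mem_ball_zero_iff.2 hxε, hx⟩
  exact closure_minimal (fun y hy => hsmall y hy.2 (mem_ball_zero_iff.1 hy.1)) hZ.isClosed h1

end Pool.Agent.Lib.MP_056111_lc.HL
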