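import Pool.Agent.Lib.MP_056111_lc.HL.Defs

/-!
Limits of subgroups along an ultrafilter.
-/

open Set Topology Filter Pointwise

namespace Pool.Agent.Lib.MP_056111_lc.HL

variable {G : Type} [NormedAddCommGroup G]

theorem exists_lim (U : Ultrafilter ℕ) {C : Set G} (hC : IsCompact C) (A : ℕ → AddSubgroup G)
    (hA : ∀ n, (A n : Set G) ⊆ C) :
    ∃ L : AddSubgroup G, IsCompact (L : Set G) ∧
      ∀ y, y ∈ L ↔ ∀ ε > 0, ∀ᶠ n in (U : Filter ℕ), ∃ a ∈ A n, ‖a - y‖ < ε := by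
  let L : AddSubgroup G :=
    { carrier := {y | ∀ ε > 0, ∀ᶠ n in (U : Filter ℕ), ∃ a ∈ A n, ‖a - y‖ < ε}
      add_mem' := by
        intro y z hy hz ε hε
        filter_upwards [hy (ε / 2) (half_pos hε), hz (ε / 2) (half_pos hε)] with n h1 h2
        obtain ⟨a, ha, h1⟩ := h1
        obtain ⟨b, hb, h2⟩ := h2
        refine ⟨a + b, (A n).add_mem ha hb, ?_⟩
        have e : a + b - (y + z) = (a - y) + (b - z) := by abel
        rw [e]
        linarith [norm_add_le (a - y) (b - z)]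
      zero_mem' := fun ε hε => Eventually.of_forall fun n => ⟨0, (A n).zero_mem, by simpa using hε⟩
      neg_mem' := by
        intro y hy ε hε
        filter_upwards [hy ε hε] with n h1
        obtain ⟨a, ha, h1⟩ := h1
        refine ⟨-a, (A n).neg_mem ha, ?_⟩
        have e : -a - -y = -(a - y) := by abel
        rwa [e, norm_neg] }
  refine ⟨L, hC.of_isClosed_subset ?_ fun y hy => ?_, fun y => Iff.rfl⟩
  · refine isClosed_of_closure_subset fun y hy ε hε => ?_
    obtain ⟨z, hz, h1⟩ := Metric.mem_closure_iff.1 hy (ε / 2) (half_pos hε)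
    filter_upwards [hz (ε / 2) (half_pos hε)] with n h2
    obtain ⟨a, ha, h2⟩ := h2
    refine ⟨a, ha, ?_⟩
    rw [dist_comm, dist_eq_norm] at h1
    have e : a - y = (a - z) + (z - y) := by abel
    rw [e]
    linarith [norm_add_le (a - z) (z - y)]
  · refine hC.isClosed.closure_subset (Metric.mem_closure_iff.2 fun ε hε => ?_)
    obtain ⟨n, a, ha, h1⟩ := (hy ε hε).exists
    exact ⟨a, hA n ha, by rwa [dist_comm, dist_eq_norm]⟩

theorem Lim_zsmul {s : ℝ} {x : G} (hx : x ∈ Pset G s) (z : ℤ) : ‖z • x‖ ≤ s := by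
  obtain ⟨k, rfl | rfl⟩ := z.eq_nat_or_neg
  · rw [natCast_zsmul]
    exact hx k
  · rw [neg_zsmul, norm_neg, natCast_zsmul]
    exact hx k

theorem Lim_enum {s : ℝ} (hs : 0 ≤ s) {y : G} (hy : y ∈ AddSubgroup.closure (Pset G s)) :
    ∃ (x : ℕ → G) (m : ℕ), (∀ i, x i ∈ Pset G s) ∧ y ∈ AddSubgroup.closure (x '' Iio m) := by
  have h0 : (0 : G) ∈ Pset G s := fun k => by simpa using hs
  have h1 : ∃ F : Set G, F.Finite ∧ F ⊆ Pset G s ∧ y ∈ AddSubgroup.closure F := by
    induction hy using AddSubgroup.closure_induction with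
    | mem a ha => exact ⟨{a}, finite_singleton a, singleton_subset_iff.2 ha,
        AddSubgroup.subset_closure rfl⟩
    | zero => exact ⟨∅, finite_empty, empty_subset _, zero_mem _⟩
    | add a b _ _ iha ihb =>
      obtain ⟨F, f1, f2, f3⟩ := iha
      obtain ⟨F', g1, g2, g3⟩ := ihb
      exact ⟨F ∪ F', f1.union g1, union_subset f2 g2,
        add_mem (AddSubgroup.closure_mono subset_union_left f3)
          (AddSubgroup.closure_mono subset_union_right g3)⟩
    | neg a _ iha =>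
      obtain ⟨F, f1, f2, f3⟩ := iha
      exact ⟨F, f1, f2, neg_mem f3⟩
  obtain ⟨F, f1, f2, f3⟩ := h1
  obtain ⟨m, e, -, he⟩ := f1.fin_param
  refine ⟨fun i => if h : i < m then e ⟨i, h⟩ else 0, m, fun i => ?_,
    AddSubgroup.closure_mono ?_ f3⟩
  · beta_reduce
    split_ifs with h
    · exact f2 (he ▸ mem_range_self _)
    · exact h0
  · rw [← he]
    rintro _ ⟨i, rfl⟩
    exact ⟨i, i.2, dif_pos i.2⟩

theorem Lim_step {s : ℝ} {x : ℕ → G} (hx : ∀ i, x i ∈ Pset G s) (j : ℕ) {y : G}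
    (hy : y ∈ AddSubgroup.closure (x '' Iio (j + 1))) :
    ∃ y' ∈ AddSubgroup.closure (x '' Iio j), ‖y - y'‖ ≤ s := by
  have e : x '' Iio (j + 1) = x '' Iio j ∪ {x j} := by
    rw [← image_singleton, ← image_union]
    congr 1
    ext i
    simp only [mem_Iio, mem_union, mem_singleton_iff]
    omega
  rw [e, AddSubgroup.closure_union, AddSubgroup.mem_sup] at hy
  obtain ⟨a, ha, b, hb, rfl⟩ := hy
  obtain ⟨z, rfl⟩ := AddSubgroup.mem_closure_singleton.1 hb
  exact ⟨a, ha, by simpa using Lim_zsmul (hx j) z⟩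

theorem exists_chain {r s : ℝ} (hr : 0 < r) (hs : 0 ≤ s)
    (h : ∃ x ∈ AddSubgroup.closure (Pset G s), r ≤ ‖x‖) :
    ∃ (T : Finset G) (M : ℕ → AddSubgroup G) (J : ℕ), (∀ x ∈ T, ‖x‖ ≤ s) ∧ M 0 = ⊥ ∧
      (∀ j, M j ≤ M J) ∧ M J ≤ AddSubgroup.closure (T : Set G) ∧ (T : Set G) ⊆ M J ∧
      (∀ j, ∀ y ∈ M (j + 1), ∃ y' ∈ M j, ‖y - y'‖ ≤ s) ∧
      (∀ y ∈ M J, ‖y‖ < r + s) ∧ ∃ y ∈ M J, r ≤ ‖y‖ := by
  classical
  obtain ⟨y0, hy0, hr0⟩ := h
  obtain ⟨x, m, hx, hm⟩ := Lim_enum hs hy0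
  have hex : ∃ j, ∃ y ∈ AddSubgroup.closure (x '' Iio j), r ≤ ‖y‖ := ⟨m, y0, hm, hr0⟩
  have h0 : x '' Iio 0 = ∅ := by simp
  obtain ⟨J, hJ, hmin⟩ : ∃ J, (∃ y ∈ AddSubgroup.closure (x '' Iio J), r ≤ ‖y‖) ∧
      ∀ j < J, ¬ ∃ y ∈ AddSubgroup.closure (x '' Iio j), r ≤ ‖y‖ :=
    ⟨Nat.find hex, Nat.find_spec hex, fun j hj => Nat.find_min hex hj⟩
  have hT : (((Finset.range J).image x : Finset G) : Set G) = x '' Iio J := by
    rw [Finset.coe_image, Finset.coe_range]
  refine ⟨(Finset.range J).image x, fun j => AddSubgroup.closure (x '' Iio (min j J)), J,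
    fun a ha => ?_, ?_, fun j => ?_, ?_, ?_, fun j y hy => ?_, fun y hy => ?_, ?_⟩
  · obtain ⟨i, -, rfl⟩ := Finset.mem_image.1 ha
    simpa using hx i 1
  · simp
  · beta_reduce
    rw [min_self]
    exact AddSubgroup.closure_mono (image_mono (Iio_subset_Iio (min_le_right _ _)))
  · beta_reduce
    rw [min_self, hT]
  · beta_reduce
    rw [min_self, hT]
    exact AddSubgroup.subset_closure
  · beta_reduce at hy ⊢
    rcases lt_or_ge j J with hj | hj
    · rw [min_eq_left (show j + 1 ≤ J from hj)] at hy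
      rw [min_eq_left hj.le]
      exact Lim_step hx j hy
    · rw [min_eq_right (show J ≤ j + 1 by omega)] at hy
      rw [min_eq_right hj]
      exact ⟨y, hy, by simpa using hs⟩
  · beta_reduce at hy
    rw [min_self] at hy
    rcases J with _ | J
    · rw [h0, AddSubgroup.closure_empty, AddSubgroup.mem_bot] at hy
      rw [hy, norm_zero]
      linarith
    · obtain ⟨y', h1, h2⟩ := Lim_step hx J hy
      have h3 : ‖y'‖ < r := not_le.1 fun hc => hmin J (Nat.lt_succ_self J) ⟨y', h1, hc⟩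
      linarith [norm_le_norm_add_norm_sub' y y']
  · beta_reduce
    rw [min_self]
    exact hJ

end Pool.Agent.Lib.MP_056111_lc.HL
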