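import Pool.Agent.Lib.MP_056111_lc.HL.Trap

/-!
A compact subgroup whose quotient has no small limit subgroup.
-/

open Set Topology Filter Pointwise

namespace Pool.Agent.Lib.MP_056111_lc.HL

variable {G : Type} [NormedAddCommGroup G]

theorem Nss_near (N : AddSubgroup G) {t : ℝ} (ht : 0 < t) {y : G}
    (hy : ‖(QuotientAddGroup.mk y : G ⧸ N)‖ ≤ t) : ∃ ν ∈ N, ‖y - ν‖ < 2 * t := by
  obtain ⟨u, hu, hu'⟩ := QuotientAddGroup.norm_lt_iff.1 (hy.trans_lt (show t < 2 * t by linarith))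
  refine ⟨-u + y, QuotientAddGroup.eq.1 hu, ?_⟩
  rwa [show y - (-u + y) = u by abel]

theorem Nss_small {H : Type} [SeminormedAddCommGroup H] {z : ℕ → H} {a : H}
    (h : ∀ i : ℕ, ‖z i - a‖ < 1 / ((i : ℝ) + 1)) : Tendsto z atTop (𝓝 a) := by
  rw [tendsto_iff_norm_sub_tendsto_zero]
  exact squeeze_zero (fun i => norm_nonneg _) (fun i => (h i).le)
    tendsto_one_div_add_atTop_nhds_zero_nat

theorem Star.exists_NQ {ρ : ℝ} (h : Star G ρ) (hρ : 0 < ρ) :
    ∃ (N : AddSubgroup G) (_ : IsClosed (N : Set G)), IsCompact (N : Set G) ∧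
      ∃ t > 0, NQ (G ⧸ N) t := by
  obtain ⟨s₀, hs₀, htrap⟩ := h.trap (half_pos hρ) (half_lt_self hρ)
  set s := min s₀ (ρ / 2) with hsdef
  have hs : 0 < s := lt_min hs₀ (half_pos hρ)
  have hsρ : s < ρ := (min_le_right _ _).trans_lt (half_lt_self hρ)
  have hM : ∀ x ∈ AddSubgroup.closure (Pset G s), ‖x‖ < ρ := fun x hx =>
    (htrap x (AddSubgroup.closure_mono (fun y hy k => (hy k).trans (min_le_left _ _)) hx)).trans
      (half_lt_self hρ)
  have hY : IsCompact (Pset G s ∩ Qset G s) := (h.isCompact_Qset hsρ).inter_left (isClosed_Pset s)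
  have hK : IsCompact
      ((AddSubgroup.closure (Pset G s ∩ Qset G s)).topologicalClosure : Set G) :=
    h.hull _ hM hY fun y hy => AddSubgroup.subset_closure hy.1
  obtain ⟨N, hN, hNs, t₁, ht₁, hnss⟩ := exists_nss _ hK (half_pos hs)
  refine ⟨N, hN.isClosed, hN, min (t₁ / 2) (s / 4), lt_min (half_pos ht₁) (by linarith), ?_⟩
  set t := min (t₁ / 2) (s / 4) with htdef
  have ht : 0 < t := lt_min (half_pos ht₁) (by linarith)
  have ht1 : t ≤ t₁ / 2 := min_le_left _ _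
  have ht2 : t ≤ s / 4 := min_le_right _ _
  have hle : ∀ y : G, ‖(QuotientAddGroup.mk y : G ⧸ N)‖ ≤ t → ‖y‖ ≤ s := fun y hy => by
    obtain ⟨ν, hν, h1⟩ := Nss_near N ht hy
    have h2 := hNs ν hν
    have h3 := norm_add_le (y - ν) ν
    rw [sub_add_cancel] at h3
    linarith
  intro κ hQ hP
  choose xb k h1 h2 h3 using fun i : ℕ => hQ (1 / ((i : ℝ) + 1)) Nat.one_div_pos_of_nat
  choose x hx hx' using fun i : ℕ => QuotientAddGroup.norm_lt_iff.1 (h1 i)
  have hmk : ∀ (m : ℕ) (y : G), (QuotientAddGroup.mk (m • y) : G ⧸ N) =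
      m • QuotientAddGroup.mk y := fun m y => map_nsmul (QuotientAddGroup.mk' N) m y
  have hx0 : Tendsto x atTop (𝓝 0) := Nss_small fun i => by simpa using hx' i
  have hpath : ∀ i, ∀ j ≤ k i, ‖j • x i‖ ≤ s := fun i j hj =>
    hle _ (by rw [hmk, hx]; exact h3 i j hj)
  obtain ⟨C, hC, hC'⟩ := h.null hx0
  obtain ⟨κ', -, φ, hφ, hlim⟩ := hC.tendsto_subseq (x := fun i => k i • x i)
    fun i => hC' i _ fun j hj => (hpath i j hj).trans_lt hsρ
  have e : (QuotientAddGroup.mk κ' : G ⧸ N) = κ := by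
    have a1 := (QuotientAddGroup.continuous_mk (N := N).tendsto κ').comp hlim
    have a2 := (Nss_small h2).comp hφ.tendsto_atTop
    have := hN.isClosed
    refine tendsto_nhds_unique a1 (a2.congr fun i => ?_)
    simp only [Function.comp_apply, hmk, hx]
  have hm : ∀ m : ℕ, ‖(QuotientAddGroup.mk (m • κ') : G ⧸ N)‖ ≤ t := fun m => by
    rw [hmk, e]; exact hP m
  have hP' : κ' ∈ Pset G s := fun m => hle _ (hm m)
  have hQ' : κ' ∈ Qset G s := fun ε hε => by
    have a1 := (hx0.comp hφ.tendsto_atTop).norm.eventually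
      (gt_mem_nhds (show ‖(0 : G)‖ < ε by simpa using hε))
    have a2 := (tendsto_iff_norm_sub_tendsto_zero.1 hlim).eventually (gt_mem_nhds hε)
    obtain ⟨i, b1, b2⟩ := (a1.and a2).exists
    exact ⟨x (φ i), k (φ i), b1, b2, hpath _⟩
  have hκ : κ' ∈ N := hnss κ' (AddSubgroup.le_topologicalClosure _
    (AddSubgroup.subset_closure ⟨hP', hQ'⟩)) fun m => by
      obtain ⟨ν, hν, a⟩ := Nss_near N ht (hm m)
      exact ⟨ν, hν, by linarith⟩
  rw [← e]
  exact (QuotientAddGroup.eq_zero_iff κ').2 hκ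

end Pool.Agent.Lib.MP_056111_lc.HL
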