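import Pool.Agent.Lib.MP_056111_lc.HL.Quo
import Pool.Agent.Lib.MP_056111_lc.HL.Nss
import Pool.Agent.Lib.MP_056111_lc.HL.Cube
import Pool.Agent.Lib.MP_056111_lc.HL.Fin
import Pool.Agent.Lib.MP_056111_lc.CL.Main
import Pool.Agent.Lib.MP_056111_lc.CL.ExB

/-!
The local condition holds exactly when every compact set lies in a locally compact subgroup.
-/

open Set Topology Filter Pointwise

namespace Pool.Agent.Lib.MP_056111_lc.HL

theorem inLC_of_NQ {G : Type} [NormedAddCommGroup G] {ρ t : ℝ} (h : Star G ρ) (hρ : 0 < ρ)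
    (hq : NQ G t) (ht : 0 < t) {D : Set G} (hD : IsCompact D) : InLC D := by
  obtain ⟨s, hs, htrap⟩ := h.trap (half_pos hρ) (half_lt_self hρ)
  set t' := min (min t s) (ρ / 2) with ht'
  have h1 : t' ≤ t := (min_le_left _ _).trans (min_le_left _ _)
  have h2 : t' ≤ s := (min_le_left _ _).trans (min_le_right _ _)
  have h3 : t' < ρ := lt_of_le_of_lt (min_le_right _ _) (half_lt_self hρ)
  obtain ⟨m, e, he, ε, hε, hc⟩ := h.cube (hq.mono h1) (by positivity) h3
  let M := (AddSubgroup.closure (Pset G s)).topologicalClosure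
  have hM : ∀ x ∈ M, ‖x‖ < ρ := by
    intro x hx
    have : x ∈ Metric.closedBall (0 : G) (ρ / 2) :=
      closure_minimal (fun y hy => by simpa using (htrap y hy).le) Metric.isClosed_closedBall hx
    rw [mem_closedBall_zero_iff] at this
    linarith
  refine inLC_of_cube M (AddSubgroup.isClosed_topologicalClosure _)
    (fun D hD hDM => h.hull M hM hD hDM) e he hε (fun x hx => ?_) hD
  obtain ⟨v, hv, hP⟩ := hc x hx
  exact ⟨v, hv, AddSubgroup.le_topologicalClosure _
    (AddSubgroup.subset_closure fun k => (hP k).trans h2)⟩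

theorem hull_normed (G : Type) [NormedAddCommGroup G] (h : CL.LH G) (D : Set G)
    (hD : IsCompact D) : ∃ L : AddSubgroup G, LocallyCompactSpace L ∧ D ⊆ L := by
  obtain ⟨ρ, hρ, hs⟩ := exists_star h
  obtain ⟨N, hNc, hN, t, ht, hq⟩ := hs.exists_NQ hρ
  exact (InLC.of_quot N hN (inLC_of_NQ (hs.quot N hN) hρ hq ht
    (hD.image QuotientAddGroup.continuous_mk))).locallyCompact

theorem hull_iff (G : Type) [AddCommGroup G] [TopologicalSpace G] [IsTopologicalAddGroup G]
    [PolishSpace G] : CL.LH G ↔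
      ∀ D : Set G, IsCompact D → ∃ L : AddSubgroup G, LocallyCompactSpace L ∧ D ⊆ L :=
  ⟨CL.transfer (fun G _ _ => CL.LH G →
      ∀ D : Set G, IsCompact D → ∃ L : AddSubgroup G, LocallyCompactSpace L ∧ D ⊆ L)
    (fun G _ _ _ => hull_normed G) G, CL.LH_of_hull⟩

theorem main (G : Type) [AddCommGroup G] [TopologicalSpace G] [IsTopologicalAddGroup G]
    [PolishSpace G] :
    List.TFAE [∀ A : ℕ → Set G, (∀ n, CL.SHM (A n)) → CL.SHM (⋃ n, A n),
      ∀ A B : Set G, CL.SHM A → CL.SHM B → CL.SHM (A ∪ B),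
      ∀ A : Set G, CL.HM A → CL.SHM A,
      CL.LH G,
      ∀ D : Set G, IsCompact D → ∃ L : AddSubgroup G, LocallyCompactSpace L ∧ D ⊆ L] := by
  have h := CL.main G
  tfae_have 1 ↔ 2 := h.out 0 1
  tfae_have 1 ↔ 3 := h.out 0 2
  tfae_have 1 ↔ 4 := h.out 0 3
  tfae_have 4 ↔ 5 := hull_iff G
  tfae_finish

end Pool.Agent.Lib.MP_056111_lc.HL
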