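import Pool.Agent.Lib.MP_056111_lc.HL.One

/-!
Finitely many one parameter subgroups approximate all others.
-/

open Set Topology Filter Pointwise

namespace Pool.Agent.Lib.MP_056111_lc.HL

variable {G : Type} [NormedAddCommGroup G]

theorem Net_small (γ : ℝ →+ G) (hγ : Continuous γ) {δ : ℝ} (hδ : 0 < δ) (i : ℕ) :
    ∃ n : ℕ, i + 1 ≤ n ∧ ∀ τ : ℝ, 0 ≤ τ → τ ≤ 1 / (n : ℝ) → ‖γ τ‖ < δ := by
  obtain ⟨r, hr, h⟩ := Metric.continuousAt_iff.1 (hγ.continuousAt (x := 0)) δ hδ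
  obtain ⟨m, hm⟩ := exists_nat_one_div_lt hr
  refine ⟨max (i + 1) (m + 1), le_max_left _ _, fun τ h0 h1 => ?_⟩
  have h2 : 1 / ((max (i + 1) (m + 1) : ℕ) : ℝ) ≤ 1 / ((m : ℝ) + 1) :=
    one_div_le_one_div_of_le (by positivity) (by exact_mod_cast le_max_right _ _)
  have := h (x := τ) (by rw [dist_zero_right, Real.norm_eq_abs, abs_of_nonneg h0]; linarith)
  simpa using this

theorem Net_nsmul (γ : ℝ →+ G) (k n : ℕ) : k • γ (1 / (n : ℝ)) = γ ((k : ℝ) / n) := by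
  rw [← map_nsmul, nsmul_eq_mul, mul_one_div]

theorem Net_mem {k n : ℕ} (h : k ≤ n) : (k : ℝ) / n ∈ Icc (0 : ℝ) 1 :=
  ⟨by positivity, div_le_one_of_le₀ (by exact_mod_cast h) (by positivity)⟩

theorem Net_tend {x : ℕ → G} (h : ∀ i, ‖x i‖ < 1 / ((i : ℝ) + 1)) : Tendsto x atTop (𝓝 0) :=
  squeeze_zero_norm (fun i => (h i).le) tendsto_one_div_add_atTop_nhds_zero_nat

theorem Net_hyper : (hyperfilter ℕ : Filter ℕ) ≤ atTop :=
  hyperfilter_le_cofinite.trans Nat.cofinite_eq_atTop.le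

theorem Star.net {ρ t : ℝ} (h : Star G ρ) (hq : NQ G t) (ht : t < ρ) {η : ℝ} (hη : 0 < η) :
    ∃ (m : ℕ) (f : Fin m → (ℝ →+ G)), (∀ a, Continuous (f a)) ∧
      ∀ γ : ℝ →+ G, Continuous γ → (∀ τ ∈ Icc (0 : ℝ) 1, ‖γ τ‖ ≤ t) →
        ∃ a, ∀ τ ∈ Icc (0 : ℝ) 1, ‖γ τ - f a τ‖ < η := by
  classical
  by_contra hc
  obtain ⟨g, hg, hr⟩ := exists_seq_of_forall_finset_exists
    (fun γ : ℝ →+ G => Continuous γ ∧ ∀ τ ∈ Icc (0 : ℝ) 1, ‖γ τ‖ ≤ t)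
    (fun γ γ' : ℝ →+ G => ∃ τ ∈ Icc (0 : ℝ) 1, η ≤ ‖γ' τ - γ τ‖) (fun s hs => by
      by_contra hn
      refine hc ⟨s.card, fun a => (s.equivFin.symm a : ℝ →+ G),
        fun a => (hs _ (s.equivFin.symm a).2).1, fun γ h1 h2 => ?_⟩
      by_contra h3
      refine hn ⟨γ, ⟨h1, h2⟩, fun x hx => ?_⟩
      by_contra h4
      refine h3 ⟨s.equivFin ⟨x, hx⟩, fun τ hτ => ?_⟩
      simp only [Equiv.symm_apply_apply]
      exact lt_of_not_ge fun h5 => h4 ⟨τ, hτ, h5⟩)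
  choose n hn1 hn2 using fun i : ℕ => Net_small (g i) (hg i).1
    (δ := min (η / 8) (1 / ((i : ℝ) + 1))) (lt_min (by linarith) (by positivity)) i
  have hnp : ∀ i, (0 : ℝ) < n i := fun i => by
    have := hn1 i
    exact_mod_cast (by omega : 0 < n i)
  obtain ⟨γ, hγc, -, hγ⟩ := h.one_param hq ht (hyperfilter ℕ) Net_hyper
    (x := fun i => g i (1 / (n i : ℝ))) (n := n)
    (Net_tend fun i => (hn2 i _ (by positivity) le_rfl).trans_le (min_le_right _ _))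
    (tendsto_atTop_mono (fun i => by have := hn1 i; exact (by omega : i ≤ n i)) tendsto_id)
    (fun i k hk => by rw [Net_nsmul]; exact (hg i).2 _ (Net_mem hk))
  obtain ⟨N, hN0, hN⟩ := Net_small γ hγc (δ := η / 8) (by linarith) 0
  have hev : ∀ᶠ i in (hyperfilter ℕ : Filter ℕ), ∀ τ ∈ Icc (0 : ℝ) 1, ‖g i τ - γ τ‖ < η / 2 := by
    filter_upwards [hγ (η / 8) (by linarith), Net_hyper (eventually_ge_atTop (N + 1))] with i hi hiN
    intro τ hτ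
    have hp := hnp i
    set k := ⌊τ * n i⌋₊ with hk
    have k1 : (k : ℝ) ≤ τ * n i := Nat.floor_le (mul_nonneg hτ.1 hp.le)
    have k2 : τ * n i < k + 1 := Nat.lt_floor_add_one _
    have k3 : k ≤ n i := by
      have : (k : ℝ) ≤ n i := k1.trans (by nlinarith [hτ.2])
      exact_mod_cast this
    have d0 : 0 ≤ τ - (k : ℝ) / n i := by rw [sub_nonneg, div_le_iff₀ hp]; exact k1
    have d1 : τ - (k : ℝ) / n i ≤ 1 / (n i : ℝ) := by
      rw [sub_le_iff_le_add, ← add_div, le_div_iff₀ hp]; linarith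
    have e1 := (hn2 i _ d0 d1).trans_le (min_le_left _ _)
    have e2 : ‖γ (τ - (k : ℝ) / n i)‖ < η / 8 := by
      refine hN _ d0 (d1.trans (one_div_le_one_div_of_le (by exact_mod_cast hN0) ?_))
      have := hn1 i
      exact_mod_cast (by omega : N ≤ n i)
    have e3 := hi k k3
    rw [Net_nsmul] at e3
    have e : g i τ - γ τ = g i (τ - (k : ℝ) / n i) - γ (τ - (k : ℝ) / n i) +
        (g i ((k : ℝ) / n i) - γ ((k : ℝ) / n i)) := by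
      rw [map_sub, map_sub]; abel
    rw [e]
    linarith [norm_add_le (g i (τ - (k : ℝ) / n i) - γ (τ - (k : ℝ) / n i))
      (g i ((k : ℝ) / n i) - γ ((k : ℝ) / n i)),
      norm_sub_le (g i (τ - (k : ℝ) / n i)) (γ (τ - (k : ℝ) / n i))]
  obtain ⟨i, hi⟩ := hev.exists
  obtain ⟨j, hj, hij⟩ := (hev.and (Net_hyper (eventually_gt_atTop i))).exists
  obtain ⟨τ, hτ, hle⟩ := hr i j hij
  have e : g j τ - g i τ = (g j τ - γ τ) - (g i τ - γ τ) := by abel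
  rw [e] at hle
  linarith [norm_sub_le (g j τ - γ τ) (g i τ - γ τ), hi τ hτ, hj τ hτ]

theorem Star.double {ρ t : ℝ} (h : Star G ρ) (hq : NQ G t) (ht0 : 0 < t) (ht : t < ρ) :
    ∃ (m : ℕ) (f : Fin m → (ℝ →+ G)), (∀ a, Continuous (f a)) ∧ ∃ ε > (0 : ℝ), ∃ n0 : ℕ,
      ∀ (x : G) (n : ℕ), ‖x‖ < ε → n0 ≤ n → (∀ k ≤ n, ‖k • x‖ ≤ t) →
        ∃ a, ∀ k ≤ 2 * n, ‖k • (x - f a (1 / (n : ℝ)))‖ ≤ t := by
  obtain ⟨m, f, hf, hnet⟩ := h.net hq ht (η := t / 4) (by linarith)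
  refine ⟨m, f, hf, ?_⟩
  by_contra hc
  have hc' : ∀ i : ℕ, ∃ (x : G) (n : ℕ), ‖x‖ < 1 / ((i : ℝ) + 1) ∧ i + 1 ≤ n ∧
      (∀ k ≤ n, ‖k • x‖ ≤ t) ∧ ¬ ∃ a, ∀ k ≤ 2 * n, ‖k • (x - f a (1 / (n : ℝ)))‖ ≤ t := fun i => by
    by_contra h1
    refine hc ⟨1 / ((i : ℝ) + 1), by positivity, i + 1, fun x n h2 h3 h4 => ?_⟩
    by_contra h5
    exact h1 ⟨x, n, h2, h3, h4, h5⟩
  choose x n h1 h2 h3 h4 using hc'
  obtain ⟨γ, g1, g2, g3⟩ := h.one_param hq ht (hyperfilter ℕ) Net_hyper (Net_tend h1)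
    (tendsto_atTop_mono (fun i => by have := h2 i; exact (by omega : i ≤ n i)) tendsto_id) h3
  obtain ⟨a, ha⟩ := hnet γ g1 g2
  obtain ⟨i, hi⟩ := (g3 (t / 4) (by linarith)).exists
  have key : ∀ k ≤ n i, ‖k • (x i - f a (1 / (n i : ℝ)))‖ ≤ t / 2 := fun k hk => by
    have e : k • (x i - f a (1 / (n i : ℝ))) = (k • x i - γ ((k : ℝ) / n i)) +
        (γ ((k : ℝ) / n i) - f a ((k : ℝ) / n i)) := by
      rw [nsmul_sub, Net_nsmul]; abel
    rw [e]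
    linarith [norm_add_le (k • x i - γ ((k : ℝ) / n i))
      (γ ((k : ℝ) / n i) - f a ((k : ℝ) / n i)), hi k hk, ha _ (Net_mem hk)]
  refine h4 i ⟨a, fun k hk => ?_⟩
  have e : k = min k (n i) + (k - min k (n i)) := by omega
  rw [e, add_nsmul]
  linarith [norm_add_le (min k (n i) • (x i - f a (1 / (n i : ℝ))))
    ((k - min k (n i)) • (x i - f a (1 / (n i : ℝ)))), key (min k (n i)) (min_le_right _ _),
    key (k - min k (n i)) (by omega)]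

end Pool.Agent.Lib.MP_056111_lc.HL
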