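import Pool.Agent.Lib.MP_056111_lc.HL.Equi

/-!
One parameter subgroups as limits of multiples.
-/

open Set Topology Filter Pointwise

namespace Pool.Agent.Lib.MP_056111_lc.HL

variable {G : Type} [NormedAddCommGroup G]

theorem One_norm (z : ℤ) (y : G) : ‖z • y‖ = ‖z.natAbs • y‖ := by
  rcases Int.natAbs_eq z with h | h
  · conv_lhs => rw [h]
    rw [natCast_zsmul]
  · conv_lhs => rw [h]
    rw [neg_smul, norm_neg, natCast_zsmul]

theorem One_cast (z : ℤ) : ((z.natAbs : ℕ) : ℝ) = |(z : ℝ)| := by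
  rw [← Int.cast_natCast, Int.natCast_natAbs, Int.cast_abs]

theorem One_floor (s : ℝ) : |((⌊s⌋ : ℤ) : ℝ)| ≤ |s| + 1 := by
  have h1 := Int.floor_le s
  have h2 := Int.lt_floor_add_one s
  have h3 := le_abs_self s
  have h4 := neg_abs_le s
  rw [abs_le]
  constructor <;> linarith

theorem One_cpt {x : ℕ → G} {n : ℕ → ℕ} {C : Set G} (hC : IsCompact C)
    (hx : ∀ i, ∀ k ≤ n i, k • x i ∈ C) (m : ℕ) :
    ∃ S : Set G, IsCompact S ∧ ∀ i, ∀ k ≤ m * n i, k • x i ∈ S := by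
  induction m with
  | zero =>
    refine ⟨{0}, isCompact_singleton, fun i k hk => ?_⟩
    have : k = 0 := by omega
    simp [this]
  | succ m ih =>
    obtain ⟨S, hS, hS'⟩ := ih
    refine ⟨S + C, hS.add hC, fun i k hk => ?_⟩
    have hk' : k ≤ m * n i + n i := by rw [Nat.succ_mul] at hk; exact hk
    have e : k = (k - min k (n i)) + min k (n i) := by omega
    rw [e, add_nsmul]
    exact Set.add_mem_add (hS' i _ (by omega)) (hx i _ (by omega))

theorem One_lim {x : ℕ → G} {n : ℕ → ℕ} {C : Set G} (hC : IsCompact C)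
    (hx : ∀ i, ∀ k ≤ n i, k • x i ∈ C) (U : Ultrafilter ℕ)
    (hn : ∀ᶠ i in (U : Filter ℕ), 1 ≤ n i) (τ : ℝ) :
    ∃ a : G, Tendsto (fun i => (⌊τ * n i⌋ : ℤ) • x i) (U : Filter ℕ) (𝓝 a) := by
  obtain ⟨S, hS, hS'⟩ := One_cpt hC hx (⌈|τ|⌉₊ + 1)
  have hK : IsCompact (S ∪ -S) := hS.union hS.neg
  have hle : ((U.map fun i => (⌊τ * n i⌋ : ℤ) • x i : Ultrafilter G) : Filter G) ≤ 𝓟 (S ∪ -S) := by
    rw [Ultrafilter.coe_map, le_principal_iff, mem_map]
    filter_upwards [hn] with i hi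
    have hi' : (1 : ℝ) ≤ n i := by exact_mod_cast hi
    have h1 := One_floor (τ * n i)
    have h2 : |τ| ≤ ⌈|τ|⌉₊ := Nat.le_ceil _
    have h3 : ((⌊τ * n i⌋.natAbs : ℕ) : ℝ) ≤ (((⌈|τ|⌉₊ + 1) * n i : ℕ) : ℝ) := by
      rw [One_cast]
      rw [abs_mul, abs_of_nonneg (by linarith : (0 : ℝ) ≤ n i)] at h1
      push_cast
      nlinarith
    have h4 := hS' i _ (by exact_mod_cast h3)
    show (⌊τ * n i⌋ : ℤ) • x i ∈ S ∪ -S
    rcases Int.natAbs_eq ⌊τ * n i⌋ with h | h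
    · left
      rw [h, natCast_zsmul]
      exact h4
    · right
      rw [h, neg_smul, Set.mem_neg, neg_neg, natCast_zsmul]
      exact h4
  obtain ⟨a, -, ha⟩ := hK.ultrafilter_le_nhds _ hle
  exact ⟨a, ha⟩

theorem One_add (a b : ℝ) (y : G) :
    ‖(⌊a + b⌋ : ℤ) • y - ((⌊a⌋ : ℤ) • y + (⌊b⌋ : ℤ) • y)‖ ≤ ‖y‖ := by
  have h1 := Int.le_floor_add a b
  have h2 := Int.le_floor_add_floor a b
  rw [← add_smul, ← sub_smul]
  have h3 : ⌊a + b⌋ - (⌊a⌋ + ⌊b⌋) = 0 ∨ ⌊a + b⌋ - (⌊a⌋ + ⌊b⌋) = 1 := by omega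
  rcases h3 with h | h <;> rw [h] <;> simp

theorem Star.one_param {ρ t : ℝ} (h : Star G ρ) (hq : NQ G t) (ht : t < ρ) (U : Ultrafilter ℕ)
    (hU : (U : Filter ℕ) ≤ atTop) {x : ℕ → G} (hx : Tendsto x atTop (𝓝 0)) {n : ℕ → ℕ}
    (hn : Tendsto n atTop atTop) (hb : ∀ i, ∀ k ≤ n i, ‖k • x i‖ ≤ t) :
    ∃ γ : ℝ →+ G, Continuous γ ∧ (∀ τ ∈ Icc (0 : ℝ) 1, ‖γ τ‖ ≤ t) ∧
      ∀ η > 0, ∀ᶠ i in (U : Filter ℕ), ∀ k ≤ n i, ‖k • x i - γ ((k : ℝ) / n i)‖ < η := by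
  obtain ⟨C, hC, hC'⟩ := h.null hx
  have hxC : ∀ i, ∀ k ≤ n i, k • x i ∈ C := fun i k hk =>
    hC' i k fun j hj => (hb i j (hj.trans hk)).trans_lt ht
  have hnU : ∀ M : ℕ, ∀ᶠ i in (U : Filter ℕ), M ≤ n i := fun M =>
    hU (hn.eventually_ge_atTop M)
  have hxU : Tendsto (fun i => ‖x i‖) (U : Filter ℕ) (𝓝 0) :=
    (tendsto_zero_iff_norm_tendsto_zero.1 hx).mono_left hU
  choose g hg using One_lim hC hxC U (hnU 1)
  have hadd : ∀ a b, g (a + b) = g a + g b := by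
    intro a b
    have h1 := ((hg (a + b)).sub ((hg a).add (hg b))).norm
    have h2 : ‖g (a + b) - (g a + g b)‖ ≤ 0 := by
      refine le_of_tendsto_of_tendsto' h1 hxU fun i => ?_
      rw [add_mul]
      exact One_add _ _ _
    exact sub_eq_zero.1 (norm_le_zero_iff.1 h2)
  have hequi : ∀ η > (0 : ℝ), ∃ θ > (0 : ℝ), ∀ᶠ i in (U : Filter ℕ), ∀ z : ℤ,
      |(z : ℝ)| ≤ θ * n i → ‖z • x i‖ < η := by
    intro η hη
    obtain ⟨θ, hθ, ε, hε, hh⟩ := h.equi hq ht hη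
    refine ⟨θ, hθ, ?_⟩
    filter_upwards [hxU.eventually (gt_mem_nhds hε)] with i hi z hz
    rw [One_norm]
    exact hh (x i) (n i) hi (hb i) _ (by rw [One_cast]; exact hz)
  have hsmall : ∀ η > (0 : ℝ), ∃ δ > (0 : ℝ), ∀ τ : ℝ, |τ| ≤ δ → ‖g τ‖ ≤ η := by
    intro η hη
    obtain ⟨θ, hθ, hh⟩ := hequi η hη
    refine ⟨θ / 2, by positivity, fun τ hτ => le_of_tendsto (hg τ).norm ?_⟩
    filter_upwards [hh, hnU ⌈2 / θ⌉₊] with i hi hi2
    refine (hi _ ?_).le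
    have h1 := One_floor (τ * n i)
    have h0 : (0 : ℝ) ≤ n i := Nat.cast_nonneg _
    rw [abs_mul, abs_of_nonneg h0] at h1
    have h2 : 2 / θ ≤ (n i : ℝ) := (Nat.le_ceil _).trans (by exact_mod_cast hi2)
    rw [div_le_iff₀ hθ] at h2
    nlinarith
  refine ⟨AddMonoidHom.mk' g hadd, ?_, ?_, ?_⟩
  · refine continuous_of_continuousAt_zero _ ?_
    rw [Metric.continuousAt_iff]
    intro ε hε
    obtain ⟨δ, hδ, hh⟩ := hsmall (ε / 2) (by positivity)
    refine ⟨δ, hδ, fun τ hτ => ?_⟩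
    rw [map_zero, dist_zero_right]
    rw [dist_zero_right, Real.norm_eq_abs] at hτ
    have := hh τ hτ.le
    show ‖g τ‖ < ε
    linarith
  · intro τ hτ
    show ‖g τ‖ ≤ t
    refine le_of_tendsto' (hg τ).norm fun i => ?_
    rw [One_norm]
    refine hb i _ ?_
    have h0 : (0 : ℝ) ≤ n i := Nat.cast_nonneg _
    have h1 : (0 : ℤ) ≤ ⌊τ * n i⌋ := Int.floor_nonneg.2 (mul_nonneg hτ.1 h0)
    have h2 : ((⌊τ * n i⌋ : ℤ) : ℝ) ≤ ((n i : ℤ) : ℝ) := by
      have := Int.floor_le (τ * n i)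
      have h3 : τ * n i ≤ n i := by nlinarith [hτ.2]
      push_cast
      linarith
    have h3 : ⌊τ * n i⌋ ≤ (n i : ℤ) := by exact_mod_cast h2
    omega
  · intro η hη
    obtain ⟨θ, hθ, hh⟩ := hequi (η / 3) (by positivity)
    obtain ⟨δ, hδ, hd⟩ := hsmall (η / 3) (by positivity)
    obtain ⟨M, hM⟩ := exists_nat_gt (max (2 / θ) (1 / δ))
    have hM1 : 2 / θ < M := (le_max_left _ _).trans_lt hM
    have hM2 : 1 / δ < M := (le_max_right _ _).trans_lt hM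
    have hM0 : (0 : ℝ) < M := lt_trans (by positivity) hM1
    have hM1' : 2 / (M : ℝ) ≤ θ := by
      rw [div_lt_iff₀ hθ] at hM1
      rw [div_le_iff₀ hM0]
      linarith
    have hM2' : 1 / (M : ℝ) ≤ δ := by
      rw [div_lt_iff₀ hδ] at hM2
      rw [div_le_iff₀ hM0]
      linarith
    have hgrid : ∀ᶠ i in (U : Filter ℕ), ∀ a ∈ Finset.range (M + 1),
        ‖(⌊(a : ℝ) / M * n i⌋ : ℤ) • x i - g ((a : ℝ) / M)‖ < η / 3 := by
      rw [eventually_all_finset]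
      intro a _
      exact (tendsto_iff_norm_sub_tendsto_zero.1 (hg ((a : ℝ) / M))).eventually
        (gt_mem_nhds (by positivity))
    filter_upwards [hh, hgrid, hnU M] with i hi hi2 hi3 k hk
    have hMn : (M : ℝ) ≤ n i := by exact_mod_cast hi3
    have hn0 : (0 : ℝ) < n i := hM0.trans_le hMn
    have hkn : (k : ℝ) ≤ n i := by exact_mod_cast hk
    set r : ℝ := (k : ℝ) / n i with hr
    have hr0 : 0 ≤ r := by positivity
    have hr1 : r ≤ 1 := by rw [hr, div_le_one hn0]; exact hkn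
    have hrk : r * n i = k := by rw [hr]; field_simp
    set a : ℕ := ⌊r * M⌋₊ with ha
    have ha1 : (a : ℝ) ≤ r * M := Nat.floor_le (by positivity)
    have ha2 : r * M < a + 1 := Nat.lt_floor_add_one _
    have haM : a ∈ Finset.range (M + 1) := by
      rw [Finset.mem_range, Nat.lt_succ_iff]
      have : (a : ℝ) ≤ M := by nlinarith
      exact_mod_cast this
    set s : ℝ := (a : ℝ) / M with hs
    have hs1 : s ≤ r := by rw [hs, div_le_iff₀ hM0]; exact ha1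
    have hs2 : r ≤ s + 1 / M := by
      rw [hs, ← add_div, le_div_iff₀ hM0]
      exact ha2.le
    have e1 := hi2 a haM
    have e2 : ‖g (r - s)‖ ≤ η / 3 := by
      refine hd _ ?_
      rw [abs_le]
      constructor <;> linarith
    have e3 : ‖((k : ℤ) - ⌊s * n i⌋) • x i‖ < η / 3 := by
      refine hi _ ?_
      have f1 := Int.floor_le (s * n i)
      have f2 := Int.lt_floor_add_one (s * n i)
      have f3 : s * n i ≤ r * n i := mul_le_mul_of_nonneg_right hs1 hn0.le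
      have f4 : r * n i ≤ (s + 1 / M) * n i := mul_le_mul_of_nonneg_right hs2 hn0.le
      have f5 : 1 ≤ 1 / (M : ℝ) * n i := by
        rw [one_div, inv_mul_eq_div, le_div_iff₀ hM0]
        linarith
      have f6 : 2 / (M : ℝ) * n i ≤ θ * n i := mul_le_mul_of_nonneg_right hM1' hn0.le
      have f7 : 2 / (M : ℝ) * n i = 2 * (1 / (M : ℝ) * n i) := by ring
      push_cast
      rw [abs_le]
      constructor <;> nlinarith
    have e4 : g r = g (r - s) + g s := by rw [← hadd, sub_add_cancel]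
    show ‖k • x i - g r‖ < η
    have e5 : k • x i - g r = ((k : ℤ) - ⌊s * n i⌋) • x i +
        ((⌊s * n i⌋ : ℤ) • x i - g s) - g (r - s) := by
      rw [e4, sub_smul, natCast_zsmul]
      abel
    rw [e5]
    have e6 := norm_sub_le (((k : ℤ) - ⌊s * n i⌋) • x i + ((⌊s * n i⌋ : ℤ) • x i - g s)) (g (r - s))
    have e7 := norm_add_le (((k : ℤ) - ⌊s * n i⌋) • x i) ((⌊s * n i⌋ : ℤ) • x i - g s)
    linarith

end Pool.Agent.Lib.MP_056111_lc.HL
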