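import Pool.Agent.Lib.MP_056111_lc.HL.Defs

/-!
Quotients by compact subgroups.
-/

open Set Topology Filter Pointwise

namespace Pool.Agent.Lib.MP_056111_lc.HL

variable {G : Type} [NormedAddCommGroup G]

theorem isCompact_preimage_mk (N : AddSubgroup G) [IsClosed (N : Set G)]
    (hN : IsCompact (N : Set G)) {Z : Set (G ⧸ N)} (hZ : IsCompact Z) :
    IsCompact ((QuotientAddGroup.mk : G → G ⧸ N) ⁻¹' Z) := by
  refine IsProperMap.isCompact_preimage ?_ hZ
  refine isProperMap_iff_isClosedMap_and_compact_fibers.2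
    ⟨QuotientAddGroup.continuous_mk, QuotientAddGroup.isClosedMap_coe hN, fun y => ?_⟩
  obtain ⟨x, rfl⟩ := QuotientAddGroup.mk_surjective y
  have e : (QuotientAddGroup.mk : G → G ⧸ N) ⁻¹' {QuotientAddGroup.mk x} =
      (fun n => x + n) '' (N : Set G) := by
    ext z
    simp only [mem_preimage, mem_singleton_iff, mem_image, SetLike.mem_coe]
    rw [eq_comm, QuotientAddGroup.eq]
    exact ⟨fun h => ⟨_, h, by abel⟩, by
      rintro ⟨n, hn, rfl⟩
      simpa using hn⟩
  rw [e]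
  exact hN.image (by fun_prop)

theorem Star.quot {ρ : ℝ} (h : Star G ρ) (N : AddSubgroup G) [IsClosed (N : Set G)]
    (hN : IsCompact (N : Set G)) : Star (G ⧸ N) ρ := by
  intro D hD
  obtain ⟨C, hC, h0, hs⟩ := h _ (isCompact_preimage_mk N hN hD)
  refine ⟨QuotientAddGroup.mk '' C, hC.image QuotientAddGroup.continuous_mk, ⟨0, h0, rfl⟩, ?_⟩
  rintro _ ⟨x, hx, rfl⟩ d hd hn
  obtain ⟨z, hz, hz'⟩ := QuotientAddGroup.norm_lt_iff.1 hn
  have e : x + (z - x) = z := by abel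
  refine ⟨z, ?_, hz⟩
  rw [← e]
  refine hs x hx _ ?_ (by rwa [e])
  rw [mem_preimage, QuotientAddGroup.mk_sub, hz]
  simpa using hd

theorem InLC.of_quot (N : AddSubgroup G) [IsClosed (N : Set G)] (hN : IsCompact (N : Set G))
    {D : Set G} (h : InLC ((QuotientAddGroup.mk : G → G ⧸ N) '' D)) : InLC D := by
  obtain ⟨L, hD, hL, ε, hε, Z, hZ, h⟩ := h
  refine ⟨L.comap (QuotientAddGroup.mk' N), fun x hx => hD ⟨x, hx, rfl⟩,
    hL.preimage QuotientAddGroup.continuous_mk, ε, hε, _, isCompact_preimage_mk N hN hZ,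
    fun x hx hn => h _ hx (QuotientAddGroup.norm_mk_le_norm.trans_lt hn)⟩

theorem InLC.locallyCompact {D : Set G} (h : InLC D) :
    ∃ L : AddSubgroup G, LocallyCompactSpace L ∧ D ⊆ L := by
  obtain ⟨L, hD, hL, ε, hε, Z, hZ, h⟩ := h
  refine ⟨L, ?_, hD⟩
  have h1 : IsCompact ((Subtype.val : L → G) ⁻¹' Z) :=
    hL.isClosedEmbedding_subtypeVal.isCompact_preimage hZ
  refine h1.locallyCompactSpace_of_mem_nhds_of_addGroup (x := 0) ?_
  filter_upwards [Metric.ball_mem_nhds (0 : L) hε] with x hx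
  exact h x.1 x.2 (by simpa using hx)

end Pool.Agent.Lib.MP_056111_lc.HL
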