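import Pool.Agent.Lib.MP_056111_lc.HL.Base
import Pool.Agent.Lib.MP_056111_lc.HL.Chr
import Pool.Agent.Lib.MP_056111_lc.HL.Lim

/-!
Trapping of small subgroups.
-/

open Set Topology Filter Pointwise

namespace Pool.Agent.Lib.MP_056111_lc.HL

variable {G : Type} [NormedAddCommGroup G]

lemma trap_compact (T : ℕ → Finset G) (s : ℕ → ℝ) (hs : Tendsto s atTop (𝓝 0))
    (hT : ∀ n, ∀ x ∈ T n, ‖x‖ ≤ s n) :
    IsCompact ({0} ∪ ⋃ n, ((T n : Set G) ∪ -(T n : Set G))) := by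
  rw [isCompact_iff_finite_subcover]
  intro ι O hO hcov
  obtain ⟨i0, hi0⟩ := mem_iUnion.1 (hcov (Or.inl rfl))
  obtain ⟨ε, hε, hb⟩ := Metric.isOpen_iff.1 (hO i0) 0 hi0
  obtain ⟨N, hN⟩ := eventually_atTop.1 (hs.eventually (gt_mem_nhds hε))
  have hfin : (⋃ n ∈ Finset.range N, ((T n : Set G) ∪ -(T n : Set G))).Finite :=
    (Finset.range N).finite_toSet.biUnion fun n _ =>
      (T n).finite_toSet.union (T n).finite_toSet.neg
  obtain ⟨t, ht⟩ := hfin.isCompact.elim_finite_subcover O hO (by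
    intro x hx
    simp only [mem_iUnion] at hx
    obtain ⟨n, -, hx⟩ := hx
    exact hcov (Or.inr (mem_iUnion.2 ⟨n, hx⟩)))
  classical
  refine ⟨insert i0 t, ?_⟩
  rintro x (hx | hx)
  · rw [mem_singleton_iff.1 hx]
    exact mem_biUnion (Finset.mem_insert_self i0 t) hi0
  · obtain ⟨n, hx⟩ := mem_iUnion.1 hx
    by_cases hn : n < N
    · have := ht (mem_biUnion (Finset.mem_range.2 hn) hx)
      simp only [mem_iUnion] at this
      obtain ⟨i, hi, hx⟩ := this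
      exact mem_biUnion (Finset.mem_insert_of_mem hi) hx
    · refine mem_biUnion (Finset.mem_insert_self i0 t) (hb ?_)
      rw [mem_ball_zero_iff]
      have h1 : ‖x‖ ≤ s n := by
        rcases hx with hx | hx
        · exact hT n x hx
        · simpa using hT n (-x) hx
      exact h1.trans_lt (hN n (by omega))

lemma trap_subset {ρ : ℝ} {C D : Set G} (h0 : (0 : G) ∈ C)
    (hC : ∀ x ∈ C, ∀ d ∈ D, ‖x + d‖ < ρ → x + d ∈ C) {T : Set G} (hT : T ⊆ D) (hT' : -T ⊆ D)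
    (hn : ∀ y ∈ AddSubgroup.closure T, ‖y‖ < ρ) : (AddSubgroup.closure T : Set G) ⊆ C := by
  intro y hy
  induction hy using AddSubgroup.closure_induction_right with
  | zero => exact h0
  | add_right x hx d hd ih =>
    exact hC x ih d (hT hd) (hn _ (add_mem hx (AddSubgroup.subset_closure hd)))
  | add_neg_cancel x hx d hd ih =>
    exact hC x ih (-d) (hT' (by simpa using hd))
      (hn _ (add_mem hx (neg_mem (AddSubgroup.subset_closure hd))))

theorem Star.trap {ρ r : ℝ} (h : Star G ρ) (hr : 0 < r) (hρ : r < ρ) :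
    ∃ s > 0, ∀ x ∈ AddSubgroup.closure (Pset G s), ‖x‖ < r := by
  by_contra hcon
  push Not at hcon
  let s : ℕ → ℝ := fun n => (ρ - r) * (1 / ((n : ℝ) + 1))
  have hρr : 0 < ρ - r := by linarith
  have hs0 : ∀ n, 0 < s n := fun n => by positivity
  have hs1 : ∀ n, r + s n ≤ ρ := by
    intro n
    have : 1 / ((n : ℝ) + 1) ≤ 1 := by
      rw [div_le_one (by positivity)]
      linarith [Nat.cast_nonneg (α := ℝ) n]
    have := mul_le_mul_of_nonneg_left this hρr.le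
    simp only [s]
    linarith
  have hslim : Tendsto s atTop (𝓝 0) := by
    have := (tendsto_one_div_add_atTop_nhds_zero_nat (𝕜 := ℝ)).const_mul (ρ - r)
    rwa [mul_zero] at this
  choose T M J hT hM0 hMJ hle hTM hstep hnorm hex using
    fun n => exists_chain hr (hs0 n).le (hcon (s n) (hs0 n))
  obtain ⟨C, hC, h0C, hCD⟩ := h _ (trap_compact T s hslim hT)
  have hMC : ∀ n j, (M n j : Set G) ⊆ C := by
    intro n j y hy
    refine trap_subset h0C hCD (T := (T n : Set G))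
      (fun x hx => Or.inr (mem_iUnion.2 ⟨n, Or.inl hx⟩))
      (fun x hx => Or.inr (mem_iUnion.2 ⟨n, Or.inr hx⟩)) (fun z hz => ?_) (hle n (hMJ n j hy))
    exact (hnorm n z ((AddSubgroup.closure_le _).2 (hTM n) hz)).trans_le (hs1 n)
  let U : Ultrafilter ℕ := hyperfilter ℕ
  have hU : (U : Filter ℕ) ≤ atTop := by
    rw [← Nat.cofinite_eq_atTop]
    exact hyperfilter_le_cofinite
  have lim : ∀ y : ℕ → G, (∀ n, y n ∈ C) → ∃ z, Tendsto y U (𝓝 z) := by
    intro y hy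
    obtain ⟨z, -, hz⟩ := hC.ultrafilter_le_nhds (U.map y)
      (le_principal_iff.2 (mem_map.2 (univ_mem' hy)))
    exact ⟨z, hz⟩
  have near : ∀ {y : ℕ → G} {z : G}, Tendsto y U (𝓝 z) → ∀ ε > 0,
      ∀ᶠ n in (U : Filter ℕ), ‖y n - z‖ < ε := by
    intro y z hy ε hε
    simpa [dist_eq_norm] using Metric.tendsto_nhds.1 hy ε hε
  obtain ⟨L, hL, hLmem⟩ := exists_lim U hC (fun n => M n (J n)) fun n => hMC n _
  choose x hxM hxr using hex
  obtain ⟨x0, hx0⟩ := lim x fun n => hMC n _ (hxM n)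
  have hx0L : x0 ∈ L :=
    (hLmem x0).2 fun ε hε => (near hx0 ε hε).mono fun n hn => ⟨x n, hxM n, hn⟩
  have hx0r : r ≤ ‖x0‖ := ge_of_tendsto' hx0.norm hxr
  obtain ⟨χ, hχc, hχm, hχn, hχx⟩ := exists_char L hL hx0L (by
    rintro rfl
    simp at hx0r
    linarith)
  have hχ0 : χ 0 = 1 := by
    have h1 := hχm 0 L.zero_mem 0 L.zero_mem
    have h2 : χ 0 ≠ 0 := by
      intro h3
      simpa [h3] using hχn 0 L.zero_mem
    rw [add_zero] at h1
    exact (mul_eq_left₀ h2).1 h1.symm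
  have hχp : ∀ a ∈ L, ∀ k : ℕ, χ (k • a) = χ a ^ k := by
    intro a ha k
    induction k with
    | zero => simpa using hχ0
    | succ k ih => rw [succ_nsmul, hχm _ (L.nsmul_mem ha k) _ ha, ih, pow_succ]
  obtain ⟨τ, hτ, huc⟩ :=
    Metric.uniformContinuousOn_iff.1 (hL.uniformContinuousOn_of_continuous hχc) 1 one_pos
  have sep : ∀ a ∈ L, ∀ b ∈ L, χ a = 1 → ‖a - b‖ < τ → ‖χ b - 1‖ < 1 := by
    intro a ha b hb h1 h2
    have := huc a ha b hb (by rwa [dist_eq_norm])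
    rwa [dist_comm, dist_eq_norm, h1] at this
  let Near : ℕ → ℕ → Prop := fun n j =>
    ∃ y ∈ M n j, ∃ b ∈ L, 1 ≤ ‖χ b - 1‖ ∧ ‖y - b‖ < τ / 2
  have hgood : ∀ᶠ n in (U : Filter ℕ), ∃ j, Near n j := by
    have : ∃ k : ℕ, 1 ≤ ‖χ x0 ^ k - 1‖ := by
      by_contra hh
      push Not at hh
      exact hχx (circ_eq_one (hχn x0 hx0L) hh)
    obtain ⟨k, hk⟩ := this
    have hw := L.nsmul_mem hx0L k
    refine ((hLmem _).1 hw (τ / 2) (half_pos hτ)).mono ?_
    rintro n ⟨a, ha, hn⟩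
    exact ⟨J n, a, ha, _, hw, by rwa [hχp _ hx0L], hn⟩
  have hfirst : ∀ n, ∃ j, ∃ y ∈ M n (j + 1), (∃ j, Near n j) →
      ¬ Near n j ∧ ∃ b ∈ L, 1 ≤ ‖χ b - 1‖ ∧ ‖y - b‖ < τ / 2 := by
    intro n
    classical
    by_cases hn : ∃ j, Near n j
    · have h1 := Nat.find_spec hn
      have h2 : Nat.find hn ≠ 0 := by
        intro h3
        rw [h3] at h1
        obtain ⟨y, hy, b, hb, h4, h5⟩ := h1
        rw [hM0 n, AddSubgroup.mem_bot] at hy
        subst hy
        linarith [sep 0 L.zero_mem b hb hχ0 (by linarith)]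
      obtain ⟨j, hj⟩ := Nat.exists_eq_succ_of_ne_zero h2
      have h3 : ¬ Near n j := Nat.find_min hn (by omega)
      rw [hj] at h1
      obtain ⟨y, hy, hb⟩ := h1
      exact ⟨j, y, hy, fun _ => ⟨h3, hb⟩⟩
    · exact ⟨0, 0, zero_mem _, fun h1 => absurd h1 hn⟩
  choose j y hy hjy using hfirst
  obtain ⟨L', -, hL'⟩ := exists_lim U hC (fun n => M n (j n)) fun n => hMC n _
  have hL'L : ∀ a ∈ L', a ∈ L := fun a ha =>
    (hLmem a).2 fun ε hε => ((hL' a).1 ha ε hε).mono fun n ⟨b, hb, hn⟩ => ⟨b, hMJ n _ hb, hn⟩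
  have hlt : ∀ a ∈ L', ‖χ a - 1‖ < 1 := by
    intro a ha
    by_contra hh
    obtain ⟨n, hn, b, hb, hba⟩ := (hgood.and ((hL' a).1 ha (τ / 2) (half_pos hτ))).exists
    exact (hjy n hn).1 ⟨b, hb, a, hL'L a ha, not_lt.1 hh, hba⟩
  obtain ⟨y0, hy0⟩ := lim y fun n => hMC n _ (hy n)
  have hy0L : y0 ∈ L' := by
    refine (hL' y0).2 fun ε hε => ?_
    have h1 : ∀ᶠ n in (U : Filter ℕ), s n < ε / 2 :=
      (hslim.mono_left hU).eventually (gt_mem_nhds (half_pos hε))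
    refine (h1.and (near hy0 _ (half_pos hε))).mono ?_
    rintro n ⟨h2, h3⟩
    obtain ⟨y', hy', h4⟩ := hstep n (j n) (y n) (hy n)
    refine ⟨y', hy', ?_⟩
    have e : y' - y0 = (y n - y0) - (y n - y') := by abel
    rw [e]
    linarith [norm_sub_le (y n - y0) (y n - y')]
  have hone : χ y0 = 1 := by
    refine circ_eq_one (hχn _ (hL'L _ hy0L)) fun k => ?_
    rw [← hχp _ (hL'L _ hy0L)]
    exact hlt _ (L'.nsmul_mem hy0L k)
  obtain ⟨n, hn, h1⟩ := (hgood.and (near hy0 _ (half_pos hτ))).exists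
  obtain ⟨-, b, hb, h2, h3⟩ := hjy n hn
  have h4 : ‖y0 - b‖ < τ := by
    have e : y0 - b = (y n - b) - (y n - y0) := by abel
    rw [e]
    linarith [norm_sub_le (y n - b) (y n - y0)]
  linarith [sep y0 (hL'L _ hy0L) b hb hone h4]

end Pool.Agent.Lib.MP_056111_lc.HL
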